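import Mathlib
import Pool.Graph.R_pool_sql_team_seeded_64922ed1.X167.W.Sys

/-! Groups acting on a Hamiltonian system and their momentum functions. -/

open scoped Topology ContDiff Manifold
open Pool.Agent.X167.W

noncomputable section

namespace Pool.Agent.H15.WM

universe u

/-- The group `G` acts on the manifold of `S` by smooth maps which preserve the form. -/
structure ActsSymplectically (S : Sys.{u}) (G : Type*) [Group G] [MulAction G S.M] : Prop where
  smooth : ∀ g : G, ContMDiff 𝓘(ℝ, S.E) 𝓘(ℝ, S.E) ∞ (fun x : S.M => g • x)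
  symp : ∀ (g : G) (x : S.M) (u v : S.E),
    S.om (g • x) (mfderiv 𝓘(ℝ, S.E) 𝓘(ℝ, S.E) (fun x : S.M => g • x) x u)
      (mfderiv 𝓘(ℝ, S.E) 𝓘(ℝ, S.E) (fun x : S.M => g • x) x v) = S.om x u v

/-- `s ↦ c s` is a one-parameter group in `G` and the smooth function `b` is its momentum: the velocity
of `s ↦ c s • x` at `s = 0` is the Hamiltonian vector `X` of `b` at `x`, `ω(X, ·) = - db`. -/
structure IsMomentum (S : Sys.{u}) {G : Type*} [Group G] [MulAction G S.M] (c : ℝ → G)
    (b : S.M → ℝ) : Prop where
  add : ∀ s t, c (s + t) = c s * c t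
  smooth : S.Smooth b
  gen : ∀ x : S.M, ∃ X : S.E, S.Velocity (fun s => c s • x) 0 X ∧ ∀ v, S.om x X v = - S.D b x v

/-- `L` is a compact part of the level set `{H = c}`, non-empty, open in the level set (for instance the
level set itself, or a connected component of it), and the differential of `H` does not vanish on
`L`. -/
structure RegularPart (S : Sys.{u}) (H : S.M → ℝ) (c : ℝ) (L : Set S.M) : Prop where
  nonempty : L.Nonempty
  compact : IsCompact L
  level : ∀ x ∈ L, H x = c
  isOpen : ∀ x ∈ L, ∀ᶠ y in 𝓝 x, H y = c → y ∈ L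
  regular : ∀ x ∈ L, S.d H x ≠ 0

end Pool.Agent.H15.WM
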