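import Mathlib
import Pool.Agent.H15.WM.Defs
import Pool.Agent.H21.WS.Defs

/-! Hamiltonian actions of Lie groups. -/

open scoped Topology ContDiff Manifold
open Pool.Agent.X167.W

noncomputable section

namespace Pool.Agent.H15.WM

universe u

/-- `K`, a manifold modelled on `F`, acts smoothly on the manifold of `S`. -/
def SmoothAction (S : Sys.{u}) (F : Type*) [NormedAddCommGroup F] [NormedSpace ℝ F] (K : Type*)
    [TopologicalSpace K] [ChartedSpace F K] [Group K] [MulAction K S.M] : Prop :=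
  ContMDiff (𝓘(ℝ, F).prod 𝓘(ℝ, S.E)) 𝓘(ℝ, S.E) ∞ (fun p : K × S.M => p.1 • p.2)

/-- The vector `ζ_M(x)`: the derivative of `k ↦ k • x` at `k = 1` in the direction `ζ`. The Lie algebra
of `K`, the tangent space at `1`, is the model space `F` in Mathlib. -/
def genVec (S : Sys.{u}) {F : Type*} [NormedAddCommGroup F] [NormedSpace ℝ F] (K : Type*)
    [TopologicalSpace K] [ChartedSpace F K] [Group K] [MulAction K S.M] (ζ : F) (x : S.M) : S.E :=
  mfderiv 𝓘(ℝ, F) 𝓘(ℝ, S.E) (fun k : K => k • x) 1 ζ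

/-- The Lie group `K` acts smoothly on the manifold of `S`, preserving the form, and the smooth function
`J ζ` is the momentum of the element `ζ` of its Lie algebra: the vector `ζ_M(x)` is the Hamiltonian
vector of `J ζ` at `x`, `ω(ζ_M, ·) = - d(J ζ)`. -/
structure HamAction (S : Sys.{u}) {F : Type*} [NormedAddCommGroup F] [NormedSpace ℝ F] (K : Type*)
    [TopologicalSpace K] [ChartedSpace F K] [Group K] [MulAction K S.M] (J : F → S.M → ℝ) :
    Prop where
  smooth : SmoothAction S F K
  acts : ActsSymplectically S K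
  mom_smooth : ∀ ζ : F, S.Smooth (J ζ)
  mom : ∀ (ζ : F) (x : S.M) (v : S.E), S.om x (genVec S K ζ x) v = - S.D (J ζ) x v

/-- the curve `e` in a group modelled on `F` has velocity `η` at `0` -/
def VelocityZero {F : Type*} [NormedAddCommGroup F] [NormedSpace ℝ F] {K : Type*}
    [TopologicalSpace K] [ChartedSpace F K] (e : ℝ → K) (η : F) : Prop :=
  HasMFDerivAt 𝓘(ℝ, ℝ) 𝓘(ℝ, F) e 0 ((1 : ℝ →L[ℝ] ℝ).smulRight η)

/-- `e` is a smooth one-parameter group in `K`, with velocity `η` at `0`, and `e 1` acts trivially on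
the manifold of `S`: a circle acting on it. -/
structure IsCircle (S : Sys.{u}) {F : Type*} [NormedAddCommGroup F] [NormedSpace ℝ F] {K : Type*}
    [TopologicalSpace K] [ChartedSpace F K] [Group K] [MulAction K S.M] (e : ℝ → K) (η : F) :
    Prop where
  smooth : ContMDiff 𝓘(ℝ, ℝ) 𝓘(ℝ, F) ∞ e
  add : ∀ s t, e (s + t) = e s * e t
  velocity : VelocityZero e η
  period : ∀ x : S.M, e 1 • x = x

/-- the differential of `b` does not vanish at `k x` -/
def MovedAt (S : Sys.{u}) {K : Type*} [Group K] [MulAction K S.M] (b : S.M → ℝ) (k : K)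
    (x : S.M) : Prop :=
  ∃ v : S.E, S.D b (k • x) v ≠ 0

/-- the form of `S` is alternating and nondegenerate -/
structure IsAlmostSymplectic (S : Sys.{u}) : Prop where
  alt : ∀ (x : S.M) (u : S.E), S.om x u u = 0
  nondeg : ∀ (x : S.M) (u : S.E), (∀ v, S.om x u v = 0) → u = 0

/-- The form of `S` is exact near `L`: there is a smooth one-form `θ` with `dθ = ω` on a neighbourhood of
`L`. -/
def ExactNear (S : Sys.{u}) (L : Set S.M) : Prop :=
  ∃ θ : H21.WS.OneForm S, H21.WS.SmoothOne S θ ∧ ∀ᶠ x in 𝓝ˢ L, H21.WS.IsPrimitiveAt S θ x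

section group

variable {M : Type*} {K : Type*} [Group K] [MulAction K M]

/-- if `x ∈ L` and `J (k x) = J x` then `k x ∈ L` -/
def MomentumInvariant (K : Type*) [Group K] [MulAction K M] {F : Type*} (J : F → M → ℝ)
    (L : Set M) : Prop :=
  ∀ (k : K) (x : M), x ∈ L → (∀ ζ, J ζ (k • x) = J ζ x) → k • x ∈ L

/-- `b (k x)` is the maximum of `b` on the orbit of `x` -/
def IsTop (b : M → ℝ) (k : K) (x : M) : Prop :=
  ∀ k' : K, b (k' • x) ≤ b (k • x)

/-- The group `K` acts by `ρ` unitarily on `V` and transitively on its unit vectors, `v₀` is a unit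
vector, the elements of `K` which map `v₀` to a multiple of `v₀` commute with the circle `e`, and the
momentum `b` of the circle is `⟨A(x) v₀, v₀⟩` for an equivariant function `A` on `M` with values in the
self-adjoint operators of `V`. -/
structure SphereMomentum [TopologicalSpace K]
    {V : Type*} [NormedAddCommGroup V] [InnerProductSpace ℂ V] [FiniteDimensional ℂ V]
    (ρ : K →* (V ≃ₗᵢ[ℂ] V)) (v₀ : V) (A : M → V →L[ℂ] V) (e : ℝ → K) (b : M → ℝ) : Prop where
  cont : ∀ v, Continuous (fun k => ρ k v)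
  unit : ‖v₀‖ = 1
  transitive : ∀ v, ‖v‖ = 1 → ∃ k, ρ k v₀ = v
  commute : ∀ k, (∃ z : ℂ, ρ k v₀ = z • v₀) → ∀ s, k * e s = e s * k
  selfAdjoint : ∀ x, IsSelfAdjoint (A x)
  equivariant : ∀ k x v, A (k • x) (ρ k v) = ρ k (A x v)
  momentum : ∀ x, b x = (A x).reApplyInnerSelf v₀

end group

/-- some point of `K L` is moved: `db ≠ 0` at some `k x`, `x ∈ L` -/
def Moves (S : Sys.{u}) (K : Type*) [Group K] [MulAction K S.M] (b : S.M → ℝ) (L : Set S.M) :
    Prop :=
  ∃ x ∈ L, ∃ k : K, MovedAt S b k x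

/-- `db ≠ 0` at some `k x` with `x ∈ L` and `b (k x)` maximal for this `x` -/
def TopMoves (S : Sys.{u}) (K : Type*) [Group K] [MulAction K S.M] (b : S.M → ℝ) (L : Set S.M) :
    Prop :=
  ∃ x ∈ L, ∃ k : K, IsTop b k x ∧ MovedAt S b k x

section herm

variable {V : Type*} [NormedAddCommGroup V] [InnerProductSpace ℂ V]

/-- `v` is a unit vector at which the Hermitian form `⟨A v, v⟩` is maximal on the unit sphere -/
structure IsTopVector (A : V →L[ℂ] V) (v : V) : Prop where
  unit : ‖v‖ = 1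
  max : ∀ w : V, ‖w‖ = 1 → A.reApplyInnerSelf w ≤ A.reApplyInnerSelf v

/-- the largest eigenvalue of the self-adjoint `A` is simple: any two top vectors are proportional -/
def SimpleTop (A : V →L[ℂ] V) : Prop :=
  ∀ u v : V, IsTopVector A u → IsTopVector A v → ∃ z : ℂ, u = z • v

/-- `A x` is a scalar multiple of the identity for some `x ∈ L` -/
def ScalarSomewhere {M : Type*} (A : M → V →L[ℂ] V) (L : Set M) : Prop :=
  ∃ x ∈ L, ∃ c : ℂ, ∀ v, A x v = c • v

end herm

/-- `L` carries a periodic orbit of the Hamiltonian field of `H` which is, up to the time parameter, the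
orbit of a point under a conjugate of `e` -/
def HasConjugateOrbit (S : Sys.{u}) {K : Type*} [Group K] [MulAction K S.M] (H : S.M → ℝ)
    (L : Set S.M) (e : ℝ → K) : Prop :=
  ∃ (k : K) (x : S.M) (τ : ℝ → ℝ) (T : ℝ),
    S.IsPeriodic H (fun t => (k⁻¹ * e (τ t) * k) • x) T ∧ ∀ t, (k⁻¹ * e (τ t) * k) • x ∈ L

end Pool.Agent.H15.WM
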