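import Mathlib
import Pool.Agent.H15.WM.Defs
import Pool.Graph.R_pool_sql_team_seeded_64922ed1.X167.W.Comp

/-! Elementary facts on momentum functions. -/

open scoped Topology ContDiff Manifold
open Set Filter Pool.Agent.X167.W

noncomputable section

namespace Pool.Agent.H15.WM

universe u

variable {S : Sys.{u}} {G : Type*} [Group G] [MulAction G S.M]

/-- derivative of a function along a curve -/
lemma hasDerivAt_comp {b : S.M → ℝ} (hb : S.Smooth b) {γ : ℝ → S.M} {t : ℝ} {X : S.E}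
    (h : S.Velocity γ t X) : HasDerivAt (fun s => b (γ s)) (S.D b (γ t) X) t := by
  have h1 : HasMFDerivAt 𝓘(ℝ, ℝ) 𝓘(ℝ, ℝ) (b ∘ γ) t
      ((S.d b (γ t)).comp ((1 : ℝ →L[ℝ] ℝ).smulRight X)) :=
    HasMFDerivAt.comp t (Sys.hasD hb (γ t)) h
  have h2 : HasFDerivAt (b ∘ γ) ((S.d b (γ t)).comp ((1 : ℝ →L[ℝ] ℝ).smulRight X)) t :=
    hasMFDerivAt_iff_hasFDerivAt.1 h1
  have h3 := h2.hasDerivAt
  refine h3.congr_deriv ?_
  show S.d b (γ t) ((1 : ℝ) • X) = _
  rw [one_smul]

/-- reparametrised curves -/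
lemma velocity_comp {γ : ℝ → S.M} {τ : ℝ → ℝ} {t a : ℝ} {X : S.E} (h : S.Velocity γ (τ t) X)
    (hτ : HasDerivAt τ a t) : S.Velocity (fun s => γ (τ s)) t (a • X) := by
  have h3 : HasMFDerivAt 𝓘(ℝ, ℝ) 𝓘(ℝ, ℝ) τ t ((1 : ℝ →L[ℝ] ℝ).smulRight a) :=
    hτ.hasFDerivAt.hasMFDerivAt
  have h5 := HasMFDerivAt.comp t h h3
  refine h5.congr_mfderiv ?_
  refine ContinuousLinearMap.ext fun (r : ℝ) => ?_
  show (r * a) • X = r • (a • X)
  rw [mul_smul]

lemma IsMomentum.zero {c : ℝ → G} {b : S.M → ℝ} (h : IsMomentum S c b) : c 0 = 1 := by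
  have := h.add 0 0
  simpa using this

/-- velocity of an orbit of a one-parameter group -/
lemma IsMomentum.velocity {c : ℝ → G} {b : S.M → ℝ} (h : IsMomentum S c b) (x : S.M) (s : ℝ) :
    ∃ X : S.E, S.Velocity (fun r => c r • x) s X ∧
      ∀ v, S.om (c s • x) X v = - S.D b (c s • x) v := by
  obtain ⟨X, hX, hv⟩ := h.gen (c s • x)
  refine ⟨X, ?_, hv⟩
  have h1 : HasDerivAt (fun r : ℝ => r - s) 1 s := (hasDerivAt_id s).sub_const s
  have hX' : S.Velocity (fun r => c r • (c s • x)) ((fun r : ℝ => r - s) s) X := by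
    have h0 : (fun r : ℝ => r - s) s = 0 := by simp
    rw [h0]; exact hX
  have h2 := velocity_comp (τ := fun r : ℝ => r - s) hX' h1
  rw [one_smul] at h2
  have e : (fun r : ℝ => c (r - s) • (c s • x)) = fun r => c r • x := by
    funext r
    rw [← mul_smul, ← h.add]
    congr 2
    ring
  rw [e] at h2
  exact h2

/-- the reversed one-parameter group -/
lemma IsMomentum.neg {c : ℝ → G} {b : S.M → ℝ} (h : IsMomentum S c b) :
    IsMomentum S (fun s => c (-s)) (fun x => - b x) where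
  add s t := by
    show c (-(s + t)) = c (-s) * c (-t)
    rw [← h.add]; congr 1; ring
  smooth := contMDiff_id.neg.comp h.smooth
  gen x := by
    obtain ⟨X, hX, hv⟩ := h.gen x
    refine ⟨-X, ?_, fun v => ?_⟩
    · have h1 : HasDerivAt (fun r : ℝ => -r) (-1) 0 := hasDerivAt_neg' 0
      have hX' : S.Velocity (fun r => c r • x) ((fun r : ℝ => -r) 0) X := by
        have h0 : (fun r : ℝ => -r) 0 = 0 := by simp
        rw [h0]; exact hX
      have h2 := velocity_comp (τ := fun r : ℝ => -r) hX' h1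
      rw [neg_one_smul] at h2
      exact h2
    · have e : S.D (fun x => - b x) x v = - S.D b x v := by
        have h1 := (Sys.hasD h.smooth x).neg
        have h2 := h1.mfderiv
        exact DFunLike.congr_fun h2 v
      rw [e]
      show S.form x (-X) v = _
      rw [map_neg, neg_apply]
      have := hv v
      simp only [Sys.om] at this
      rw [this]

end Pool.Agent.H15.WM
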