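import Mathlib
import Pool.Agent.H15.WM.Basic

/-! Lagrange multipliers on the manifold, and continuity of the multiplier. -/

open scoped Topology ContDiff Manifold
open Set Filter Pool.Agent.X167.W

noncomputable section

namespace Pool.Agent.H15.WM

universe u

variable {S : Sys.{u}}

/-- the function `f` in the chart at `x₀` -/
abbrev inChart (f : S.M → ℝ) (x₀ : S.M) : S.E → ℝ :=
  f ∘ (extChartAt 𝓘(ℝ, S.E) x₀).symm

lemma contDiffOn_inChart {f : S.M → ℝ} (hf : S.Smooth f) (x₀ : S.M) :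
    ContDiffOn ℝ ∞ (inChart f x₀) (extChartAt 𝓘(ℝ, S.E) x₀).target := by
  rw [← contMDiffOn_iff_contDiffOn]
  exact ContMDiff.comp_contMDiffOn hf (contMDiffOn_extChartAt_symm x₀)

/-- the derivative of the inverse of the chart at `x₀`, at the image of `x` -/
def dsymm (x₀ x : S.M) : S.E →L[ℝ] S.E :=
  mfderiv 𝓘(ℝ, S.E) 𝓘(ℝ, S.E) (extChartAt 𝓘(ℝ, S.E) x₀).symm (extChartAt 𝓘(ℝ, S.E) x₀ x)

lemma fderiv_inChart_apply {f : S.M → ℝ} (hf : S.Smooth f) {x₀ x : S.M}
    (hx : x ∈ (extChartAt 𝓘(ℝ, S.E) x₀).source) (w : S.E) :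
    fderiv ℝ (inChart f x₀) (extChartAt 𝓘(ℝ, S.E) x₀ x) w = S.d f x (dsymm x₀ x w) := by
  set e := extChartAt 𝓘(ℝ, S.E) x₀ with he
  have h1 : HasMFDerivAt 𝓘(ℝ, S.E) 𝓘(ℝ, S.E) e.symm (e x) (dsymm x₀ x) := by
    have h2 := (contMDiffOn_extChartAt_symm (I := 𝓘(ℝ, S.E)) (n := ∞) x₀)
    have h3 := h2.contMDiffAt ((isOpen_extChartAt_target x₀).mem_nhds (e.map_source hx))
    exact (h3.mdifferentiableAt (by simp)).hasMFDerivAt
  have h2 : HasMFDerivAt 𝓘(ℝ, S.E) 𝓘(ℝ, ℝ) f (e.symm (e x)) (S.d f (e.symm (e x))) :=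
    Sys.hasD hf _
  have h3 := HasMFDerivAt.comp (e x) h2 h1
  have h4 : HasFDerivAt (inChart f x₀) ((S.d f (e.symm (e x))).comp (dsymm x₀ x)) (e x) :=
    hasMFDerivAt_iff_hasFDerivAt.1 h3
  have h5 : fderiv ℝ (inChart f x₀) (e x) = (S.d f (e.symm (e x))).comp (dsymm x₀ x) :=
    h4.fderiv
  rw [h5, e.left_inv hx]
  rfl

lemma exists_dsymm_eq (x₀ : S.M) (v : S.E) : ∃ w : S.E, dsymm x₀ x₀ w = v := by
  set e := extChartAt 𝓘(ℝ, S.E) x₀ with he
  have h1 : HasMFDerivAt 𝓘(ℝ, S.E) 𝓘(ℝ, S.E) e.symm (e x₀) (dsymm x₀ x₀) := by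
    have h2 := (contMDiffOn_extChartAt_symm (I := 𝓘(ℝ, S.E)) (n := ∞) x₀)
    have h3 := h2.contMDiffAt ((isOpen_extChartAt_target x₀).mem_nhds (mem_extChartAt_target x₀))
    exact (h3.mdifferentiableAt (by simp)).hasMFDerivAt
  have h2 : HasMFDerivAt 𝓘(ℝ, S.E) 𝓘(ℝ, S.E) e x₀ (mfderiv 𝓘(ℝ, S.E) 𝓘(ℝ, S.E) e x₀) := by
    have h3 : ContMDiffAt 𝓘(ℝ, S.E) 𝓘(ℝ, S.E) ∞ e x₀ := contMDiffAt_extChartAt
    exact (h3.mdifferentiableAt (by simp)).hasMFDerivAt
  have h3 := HasMFDerivAt.comp x₀ h1 h2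
  have h4 : HasMFDerivAt 𝓘(ℝ, S.E) 𝓘(ℝ, S.E) (e.symm ∘ e) x₀ (ContinuousLinearMap.id ℝ S.E) := by
    refine (hasMFDerivAt_id x₀).congr_of_eventuallyEq ?_
    filter_upwards [(isOpen_extChartAt_source (I := 𝓘(ℝ, S.E)) x₀).mem_nhds
      (mem_extChartAt_source x₀)] with z hz
    exact e.left_inv hz
  have h5 := hasMFDerivAt_unique h3 h4
  exact ⟨_, DFunLike.congr_fun h5 v⟩

/-- Lagrange multipliers -/
lemma lagrange {H b : S.M → ℝ} (hH : S.Smooth H) (hb : S.Smooth b) {y : S.M}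
    (hreg : S.d H y ≠ 0) (hmax : ∀ᶠ x in 𝓝 y, H x = H y → b x ≤ b y) :
    ∃ l : ℝ, S.d b y = l • S.d H y := by
  set e := extChartAt 𝓘(ℝ, S.E) y with he
  have hst : ∀ {f : S.M → ℝ}, S.Smooth f →
      HasStrictFDerivAt (inChart f y) (fderiv ℝ (inChart f y) (e y)) (e y) := by
    intro f hf
    exact ((contDiffOn_inChart hf y).contDiffAt ((isOpen_extChartAt_target y).mem_nhds
      (mem_extChartAt_target y))).hasStrictFDerivAt (by simp)
  have hys : e.symm (e y) = y := extChartAt_to_inv y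
  have hext : IsLocalExtrOn (inChart b y) {z | inChart H y z = inChart H y (e y)} (e y) := by
    right
    have ht : Tendsto e.symm (𝓝 (e y)) (𝓝 y) := by
      have := continuousAt_extChartAt_symm (I := 𝓘(ℝ, S.E)) y
      rw [ContinuousAt, hys] at this
      exact this
    rw [IsMaxFilter, eventually_nhdsWithin_iff]
    filter_upwards [ht.eventually hmax] with z h hz
    have hz' : H (e.symm z) = H (e.symm (e y)) := hz
    rw [hys] at hz'
    show b (e.symm z) ≤ b (e.symm (e y))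
    rw [hys]
    exact h hz'
  obtain ⟨p, q, hpq, h0⟩ := hext.exists_multipliers_of_hasStrictFDerivAt_1d (hst hH) (hst hb)
  have h1 : ∀ v : S.E, p * S.d H y v + q * S.d b y v = 0 := by
    intro v
    obtain ⟨w, rfl⟩ := exists_dsymm_eq y v
    have h2 := DFunLike.congr_fun h0 w
    have h3 : p * fderiv ℝ (inChart H y) (e y) w + q * fderiv ℝ (inChart b y) (e y) w = 0 := h2
    rw [fderiv_inChart_apply hH (mem_extChartAt_source y),
      fderiv_inChart_apply hb (mem_extChartAt_source y)] at h3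
    exact h3
  have hq : q ≠ 0 := by
    rintro rfl
    have hp : p ≠ 0 := by
      rintro rfl
      exact hpq rfl
    apply hreg
    ext v
    have := h1 v
    simp only [zero_mul, add_zero, mul_eq_zero, hp, false_or] at this
    simpa using this
  refine ⟨-(p / q), ?_⟩
  ext v
  have := h1 v
  show S.d b y v = -(p / q) * S.d H y v
  field_simp
  linarith

/-- continuity of the multiplier -/
lemma continuous_multiplier {H b : S.M → ℝ} (hH : S.Smooth H) (hb : S.Smooth b) {y : ℝ → S.M}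
    (hy : Continuous y) {l : ℝ → ℝ} (hreg : ∀ s, S.d H (y s) ≠ 0)
    (hl : ∀ s, S.d b (y s) = l s • S.d H (y s)) : Continuous l := by
  rw [continuous_iff_continuousAt]
  intro s₀
  obtain ⟨v, hv⟩ : ∃ v, S.d H (y s₀) v ≠ 0 := by
    by_contra hno
    push Not at hno
    exact hreg s₀ (ContinuousLinearMap.ext hno)
  obtain ⟨w, rfl⟩ := exists_dsymm_eq (y s₀) v
  set F : (S.M → ℝ) → ℝ → ℝ := fun f s =>
    fderiv ℝ (inChart f (y s₀)) (extChartAt 𝓘(ℝ, S.E) (y s₀) (y s)) w with hF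
  have hcont : ∀ {f : S.M → ℝ}, S.Smooth f → ContinuousAt (F f) s₀ := by
    intro f hf
    have h1 : ContinuousOn (fderiv ℝ (inChart f (y s₀))) (extChartAt 𝓘(ℝ, S.E) (y s₀)).target :=
      (contDiffOn_inChart hf (y s₀)).continuousOn_fderiv_of_isOpen
        (isOpen_extChartAt_target (y s₀)) (by simp)
    have h2 : ContinuousAt (fderiv ℝ (inChart f (y s₀))) (extChartAt 𝓘(ℝ, S.E) (y s₀) (y s₀)) :=
      h1.continuousAt ((isOpen_extChartAt_target (y s₀)).mem_nhds (mem_extChartAt_target (y s₀)))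
    have h3 : ContinuousAt (fun s => extChartAt 𝓘(ℝ, S.E) (y s₀) (y s)) s₀ :=
      ContinuousAt.comp (f := y) (continuousAt_extChartAt (y s₀)) hy.continuousAt
    have h4 : ContinuousAt (fun s => fderiv ℝ (inChart f (y s₀))
        (extChartAt 𝓘(ℝ, S.E) (y s₀) (y s))) s₀ :=
      ContinuousAt.comp (f := fun s => extChartAt 𝓘(ℝ, S.E) (y s₀) (y s)) h2 h3
    exact h4.clm_apply continuousAt_const
  have hne : F H s₀ ≠ 0 := by
    have h1 : F H s₀ = S.d H (y s₀) (dsymm (y s₀) (y s₀) w) :=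
      fderiv_inChart_apply hH (mem_extChartAt_source (y s₀)) w
    rw [h1]
    exact hv
  have hq : ContinuousAt (fun s => F b s / F H s) s₀ := (hcont hb).div (hcont hH) hne
  refine hq.congr ?_
  have hsrc : ∀ᶠ s in 𝓝 s₀, y s ∈ (extChartAt 𝓘(ℝ, S.E) (y s₀)).source :=
    hy.continuousAt.eventually ((isOpen_extChartAt_source (y s₀)).mem_nhds
      (mem_extChartAt_source (y s₀)))
  have hne' : ∀ᶠ s in 𝓝 s₀, F H s ≠ 0 := (hcont hH).eventually_ne hne
  filter_upwards [hsrc, hne'] with s hs hs'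
  have h1 : F b s = l s * F H s := by
    have h2 : F b s = S.d b (y s) (dsymm (y s₀) (y s) w) := fderiv_inChart_apply hb hs w
    have h3 : F H s = S.d H (y s) (dsymm (y s₀) (y s) w) := fderiv_inChart_apply hH hs w
    rw [h2, h3, hl s]
    rfl
  show F b s / F H s = l s
  rw [h1]
  field_simp

end Pool.Agent.H15.WM
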