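import Mathlib

/-! Reparametrisation of a closed curve. -/

open scoped Topology
open Set Filter MeasureTheory

namespace Pool.Agent.H15.WM

lemma exists_reparam {l : ℝ → ℝ} (hc : Continuous l) (hpos : ∀ s, 0 < l s)
    (hper : ∀ s, l (s + 1) = l s) : ∃ (τ : ℝ → ℝ) (T : ℝ), 0 < T ∧ (∀ t, τ (t + T) = τ t + 1) ∧
      ∀ t, HasDerivAt τ (l (τ t))⁻¹ t := by
  set L : ℝ → ℝ := fun s => ∫ u in (0:ℝ)..s, l u with hL
  have hd : ∀ s, HasDerivAt L (l s) s := fun s =>
    intervalIntegral.integral_hasDerivAt_right (hc.intervalIntegrable _ _)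
      (hc.stronglyMeasurableAtFilter _ _) hc.continuousAt
  have hmono : StrictMono L := strictMono_of_deriv_pos fun s => by
    rw [(hd s).deriv]; exact hpos s
  have hL0 : L 0 = 0 := by simp [hL]
  have hLc : Continuous L := continuous_iff_continuousAt.2 fun s => (hd s).continuousAt
  have hadd : ∀ s, L (s + 1) = L s + L 1 := by
    have h1 : ∀ s, HasDerivAt (fun s => L (s + 1) - L s) 0 s := by
      intro s
      have h2 : HasDerivAt (fun s => L (s + 1)) (l (s + 1)) s := by
        have := (hd (s + 1)).comp_add_const s 1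
        exact this
      have h3 := h2.sub (hd s)
      rw [hper s, sub_self] at h3
      exact h3
    have h2 := is_const_of_deriv_eq_zero (fun s => (h1 s).differentiableAt)
      (fun s => (h1 s).deriv)
    intro s
    have h3 := h2 s 0
    simp only [zero_add, hL0, sub_zero] at h3
    linarith
  -- a positive lower bound
  obtain ⟨m, hm, hlm⟩ : ∃ m : ℝ, 0 < m ∧ ∀ s, m ≤ l s := by
    obtain ⟨s0, -, hs0⟩ := isCompact_Icc.exists_isMinOn (nonempty_Icc.2 (zero_le_one (α := ℝ)))
      hc.continuousOn
    refine ⟨l s0, hpos s0, fun s => ?_⟩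
    have hp : Function.Periodic l 1 := hper
    obtain ⟨y, hy, hy'⟩ := hp.exists_mem_Ico₀ zero_lt_one s
    rw [hy']
    exact hs0 ⟨hy.1, hy.2.le⟩
  have hgrow : ∀ s t, s ≤ t → m * (t - s) ≤ L t - L s := by
    intro s t hst
    have h1 : ∀ r, HasDerivAt (fun r => L r - m * r) (l r - m) r := by
      intro r
      have h2 : HasDerivAt (fun r => m * r) (m * 1) r := (hasDerivAt_id r).const_mul m
      have h3 : HasDerivAt (fun r => L r - m * r) (l r - m * 1) r := (hd r).sub h2
      rw [mul_one] at h3
      exact h3
    have h2 : Monotone (fun r => L r - m * r) := monotone_of_deriv_nonneg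
      (fun r => (h1 r).differentiableAt) fun r => by
        rw [(h1 r).deriv]; exact sub_nonneg.2 (hlm r)
    have h3 := h2 hst
    simp only at h3
    nlinarith
  have hsurj : Function.Surjective L := by
    apply hLc.surjective
    · refine tendsto_atTop_mono' atTop (f₁ := fun s => m * s) ?_ (tendsto_id.const_mul_atTop hm)
      filter_upwards [eventually_ge_atTop 0] with s hs
      have := hgrow 0 s hs
      rw [hL0] at this
      linarith
    · refine tendsto_atBot_mono' atBot (f₂ := L) (f₁ := fun s => m * s) ?_
        (tendsto_id.const_mul_atBot hm)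
      filter_upwards [eventually_le_atBot 0] with s hs
      have := hgrow s 0 hs
      rw [hL0] at this
      linarith
  set e := hmono.orderIsoOfSurjective L hsurj with he
  have heL : ∀ s, e s = L s := fun s => rfl
  refine ⟨e.symm, L 1, ?_, ?_, ?_⟩
  · rw [← hL0]; exact hmono zero_lt_one
  · intro t
    apply e.injective
    have h1 : L (e.symm t) = t := e.apply_symm_apply t
    rw [OrderIso.apply_symm_apply, heL, hadd, h1]
  · intro t
    refine HasDerivAt.of_local_left_inverse (f := L) ?_ (hd _) (hpos _).ne' ?_
    · exact e.symm.continuous.continuousAt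
    · exact Filter.Eventually.of_forall fun y => e.apply_symm_apply y

end Pool.Agent.H15.WM
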