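import Mathlib
import Pool.Agent.H15.WM.Chart
import Pool.Agent.H15.WM.Real

/-! Periodic orbits at a maximum of the momentum of a circle on the product of the group and the level
set. -/

open scoped Topology ContDiff Manifold
open Set Filter Pool.Agent.X167.W

noncomputable section

namespace Pool.Agent.H15.WM

universe u

variable {S : Sys.{u}} {G : Type*} [Group G] [MulAction G S.M]

/-- the derivative of the diffeomorphism `g` at `x` -/
def dact (S : Sys.{u}) {G : Type*} [Group G] [MulAction G S.M] (g : G) (x : S.M) :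
    S.E →L[ℝ] S.E :=
  mfderiv 𝓘(ℝ, S.E) 𝓘(ℝ, S.E) (fun x : S.M => g • x) x

lemma hasDact (hA : ActsSymplectically S G) (g : G) (x : S.M) :
    HasMFDerivAt 𝓘(ℝ, S.E) 𝓘(ℝ, S.E) (fun x : S.M => g • x) x (dact S g x) :=
  ((hA.smooth g).mdifferentiableAt (by simp)).hasMFDerivAt

lemma dact_mul (hA : ActsSymplectically S G) (g h : G) (x : S.M) :
    dact S (g * h) x = (dact S g (h • x)).comp (dact S h x) := by
  have h1 := HasMFDerivAt.comp x (hasDact hA g (h • x)) (hasDact hA h x)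
  have e : (fun x : S.M => g • x) ∘ (fun x : S.M => h • x) = fun x : S.M => (g * h) • x := by
    funext x
    simp [mul_smul]
  rw [e] at h1
  exact hasMFDerivAt_unique (hasDact hA (g * h) x) h1

lemma dact_one (hA : ActsSymplectically S G) (x : S.M) :
    dact S (1 : G) x = ContinuousLinearMap.id ℝ S.E := by
  have h1 := hasDact hA (1 : G) x
  have e : (fun x : S.M => (1 : G) • x) = id := by
    funext x
    simp
  rw [e] at h1
  exact hasMFDerivAt_unique h1 (hasMFDerivAt_id x)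

lemma om_dact (hA : ActsSymplectically S G) (g : G) (x : S.M) (u v : S.E) :
    S.om (g • x) (dact S g x u) (dact S g x v) = S.om x u v :=
  hA.symp g x u v

lemma d_act (hA : ActsSymplectically S G) {b : S.M → ℝ} (hb : S.Smooth b) (g : G) (x : S.M) :
    S.d (fun x => b (g • x)) x = (S.d b (g • x)).comp (dact S g x) := by
  have h1 := HasMFDerivAt.comp x (Sys.hasD hb (g • x)) (hasDact hA g x)
  exact h1.mfderiv

/-- the momentum of a conjugate one-parameter group -/
lemma IsMomentum.conj (hA : ActsSymplectically S G) {c : ℝ → G} {b : S.M → ℝ}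
    (h : IsMomentum S c b) (g : G) :
    IsMomentum S (fun s => g⁻¹ * c s * g) (fun x => b (g • x)) where
  add s t := by
    show g⁻¹ * c (s + t) * g = (g⁻¹ * c s * g) * (g⁻¹ * c t * g)
    rw [h.add]; group
  smooth := h.smooth.comp (hA.smooth g)
  gen x := by
    obtain ⟨X, hX, hv⟩ := h.gen (g • x)
    have h0 : c 0 • g • x = g • x := by rw [h.zero, one_smul]
    refine ⟨dact S g⁻¹ (g • x) X, ?_, fun v => ?_⟩
    · have h1 : HasMFDerivAt 𝓘(ℝ, S.E) 𝓘(ℝ, S.E) (fun y : S.M => g⁻¹ • y) (c 0 • g • x)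
          (dact S g⁻¹ (g • x)) := by
        have := hasDact hA g⁻¹ (c 0 • g • x)
        rw [h0] at this ⊢
        exact this
      have h2 := HasMFDerivAt.comp (0 : ℝ) (f := fun s => c s • g • x) h1 hX
      have e : (fun y : S.M => g⁻¹ • y) ∘ (fun s => c s • g • x) =
          fun s => (g⁻¹ * c s * g) • x := by
        funext s
        simp [mul_smul]
      rw [e] at h2
      refine h2.congr_mfderiv ?_
      refine ContinuousLinearMap.ext fun (r : ℝ) => ?_
      show dact S g⁻¹ (g • x) (r • X) = r • dact S g⁻¹ (g • x) X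
      rw [map_smul]
    · have h1 : (dact S g x).comp (dact S g⁻¹ (g • x)) = ContinuousLinearMap.id ℝ S.E := by
        have h2 := dact_mul hA g g⁻¹ (g • x)
        rw [mul_inv_cancel, dact_one hA, inv_smul_smul] at h2
        exact h2.symm
      have h2 : dact S g x (dact S g⁻¹ (g • x) X) = X := DFunLike.congr_fun h1 X
      rw [← om_dact hA g, h2, hv]
      show - S.d b (g • x) (dact S g x v) = - S.d (fun x => b (g • x)) x v
      rw [d_act hA h.smooth]
      rfl

/-- the form is skew -/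
lemma om_skew (halt : ∀ (x : S.M) (u : S.E), S.om x u u = 0) (x : S.M) (u v : S.E) :
    S.om x u v = - S.om x v u := by
  have h := halt x (u + v)
  have e : S.om x (u + v) (u + v) = S.om x u u + S.om x u v + (S.om x v u + S.om x v v) := by
    show S.form x (u + v) (u + v) = _
    simp only [map_add, add_apply]
    ring
  rw [e, halt, halt] at h
  linarith

/-- a momentum is constant along its one-parameter group -/
lemma IsMomentum.const (halt : ∀ (x : S.M) (u : S.E), S.om x u u = 0) {c : ℝ → G} {b : S.M → ℝ}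
    (h : IsMomentum S c b) (x : S.M) (s : ℝ) : b (c s • x) = b x := by
  have h1 : ∀ s, HasDerivAt (fun s => b (c s • x)) 0 s := by
    intro s
    obtain ⟨X, hX, hv⟩ := h.velocity x s
    have h2 := hasDerivAt_comp h.smooth hX
    have h3 := hv X
    rw [halt] at h3
    refine h2.congr_deriv ?_
    linarith
  have h2 := is_const_of_deriv_eq_zero (fun s => (h1 s).differentiableAt) (fun s => (h1 s).deriv)
    s 0
  simpa [h.zero] using h2

/-- A closed curve whose velocity is a positive multiple of the Hamiltonian field is a periodic orbit,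
after a change of the parameter. -/
lemma close_pos {H : S.M → ℝ} {y : ℝ → S.M} {l : ℝ → ℝ} (hc : Continuous l) (hpos : ∀ s, 0 < l s)
    (hl : ∀ s, l (s + 1) = l s) (hy : ∀ s, y (s + 1) = y s)
    (hv : ∀ s, ∃ X : S.E, S.Velocity y s X ∧ ∀ v, S.om (y s) X v = -(l s * S.D H (y s) v)) :
    ∃ (τ : ℝ → ℝ) (T : ℝ), S.IsPeriodic H (fun t => y (τ t)) T := by
  obtain ⟨τ, T, hT, hτ, hd⟩ := exists_reparam hc hpos hl
  refine ⟨τ, T, hT, fun t => ?_, fun t => ?_⟩
  · show y (τ (t + T)) = y (τ t)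
    rw [hτ, hy]
  · obtain ⟨X, hX, hv⟩ := hv (τ t)
    refine ⟨(l (τ t))⁻¹ • X, velocity_comp hX (hd t), fun v => ?_⟩
    show S.form (y (τ t)) ((l (τ t))⁻¹ • X) v = _
    rw [map_smul, smul_apply, smul_eq_mul]
    have h1 : S.form (y (τ t)) X v = -(l (τ t) * S.D H (y (τ t)) v) := hv v
    rw [h1]
    have := (hpos (τ t)).ne'
    field_simp

lemma close_ne {H : S.M → ℝ} {y : ℝ → S.M} {l : ℝ → ℝ} (hc : Continuous l) (hne : ∀ s, l s ≠ 0)
    (hl : ∀ s, l (s + 1) = l s) (hy : ∀ s, y (s + 1) = y s)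
    (hv : ∀ s, ∃ X : S.E, S.Velocity y s X ∧ ∀ v, S.om (y s) X v = -(l s * S.D H (y s) v)) :
    ∃ (τ : ℝ → ℝ) (T : ℝ), S.IsPeriodic H (fun t => y (τ t)) T := by
  have hsign : (∀ s, 0 < l s) ∨ (∀ s, l s < 0) := by
    by_contra hno
    push Not at hno
    obtain ⟨⟨s1, h1⟩, ⟨s2, h2⟩⟩ := hno
    obtain ⟨s, hs⟩ := mem_range_of_exists_le_of_exists_ge hc ⟨s1, h1⟩ ⟨s2, h2⟩
    exact hne s hs
  rcases hsign with hpos | hneg
  · exact close_pos hc hpos hl hy hv
  · obtain ⟨τ, T, h⟩ := close_pos (S := S) (H := H) (y := fun s => y (-s)) (l := fun s => - l (-s))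
      ((hc.comp continuous_neg).neg) (fun s => neg_pos.2 (hneg _))
      (fun s => by
        have := hl (-(s + 1))
        rw [show -(s + 1) + 1 = -s by ring] at this
        rw [this])
      (fun s => by
        have := hy (-(s + 1))
        rw [show -(s + 1) + 1 = -s by ring] at this
        exact this.symm)
      (fun s => by
        obtain ⟨X, hX, hv⟩ := hv (-s)
        refine ⟨-X, ?_, fun v => ?_⟩
        · have h2 := velocity_comp (τ := fun r : ℝ => -r) hX (hasDerivAt_neg' s)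
          rw [neg_one_smul] at h2
          exact h2
        · show S.form (y (-s)) (-X) v = _
          rw [map_neg, neg_apply]
          have h1 : S.form (y (-s)) X v = -(l (-s) * S.D H (y (-s)) v) := hv v
          rw [h1]
          ring)
    exact ⟨fun t => - τ t, T, h⟩

/-- Closing: the orbit of `x₁` under the circle `c` lies in the part `L` of the level set, and the
differentials of the momentum and of `H` are proportional there. -/
theorem close_at (hA : ActsSymplectically S G) (halt : ∀ (x : S.M) (u : S.E), S.om x u u = 0)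
    {c : ℝ → G} {b : S.M → ℝ} (hcb : IsMomentum S c b) (hper : ∀ x : S.M, c 1 • x = x)
    {H : S.M → ℝ} (hH : S.Smooth H) {x₁ : S.M} (hreg : ∀ s, S.d H (c s • x₁) ≠ 0)
    (hlag : ∀ s, ∃ l : ℝ, S.d b (c s • x₁) = l • S.d H (c s • x₁)) (hne : S.d b x₁ ≠ 0) :
    ∃ (τ : ℝ → ℝ) (T : ℝ), S.IsPeriodic H (fun t => c (τ t) • x₁) T := by
  set y : ℝ → S.M := fun s => c s • x₁ with hy
  choose l hl using hlag
  have hyc : Continuous y := by
    rw [continuous_iff_continuousAt]
    intro s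
    obtain ⟨X, hX, -⟩ := hcb.velocity x₁ s
    exact hX.continuousAt
  have hlc : Continuous l := continuous_multiplier hH hcb.smooth hyc hreg hl
  have hyper : ∀ s, y (s + 1) = y s := by
    intro s
    show c (s + 1) • x₁ = c s • x₁
    rw [hcb.add, mul_smul, hper]
  have hlper : ∀ s, l (s + 1) = l s := by
    intro s
    have h1 : S.d b (y (s + 1)) = l (s + 1) • S.d H (y (s + 1)) := hl (s + 1)
    have h2 : S.d b (y s) = l s • S.d H (y s) := hl s
    rw [hyper s, h2] at h1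
    exact (smul_left_injective ℝ (hreg s) h1).symm
  have hlne : ∀ s, l s ≠ 0 := by
    intro s h0
    apply hne
    have h1 : S.d b (y s) = 0 := by
      have h2 : S.d b (y s) = l s • S.d H (y s) := hl s
      rw [h2, h0, zero_smul]
    have h2 : (fun x => b (c s • x)) = b := funext fun x => hcb.const halt x s
    have h3 := d_act hA hcb.smooth (c s) x₁
    rw [h2] at h3
    rw [h3]
    show (S.d b (y s)).comp (dact S (c s) x₁) = 0
    rw [h1, ContinuousLinearMap.zero_comp]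
  obtain ⟨τ, T, h⟩ := close_ne (S := S) (H := H) hlc hlne hlper hyper (fun s => by
    obtain ⟨X, hX, hv⟩ := hcb.velocity x₁ s
    refine ⟨X, hX, fun v => ?_⟩
    have h1 : S.om (y s) X v = - S.D b (y s) v := hv v
    rw [h1]
    show - S.d b (y s) v = _
    have h2 : S.d b (y s) = l s • S.d H (y s) := hl s
    rw [h2]
    rfl)
  exact ⟨τ, T, h⟩

/-- a momentum which vanishes to first order at `x` does so along the orbit of `x` -/
lemma IsMomentum.d_eq_zero (hA : ActsSymplectically S G)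
    (halt : ∀ (x : S.M) (u : S.E), S.om x u u = 0)
    {c : ℝ → G} {b : S.M → ℝ} (hcb : IsMomentum S c b) {x : S.M} (h0 : S.d b x = 0) (s : ℝ) :
    S.d b (c s • x) = 0 := by
  have h2 : (fun x => b (c (-s) • x)) = b := funext fun x => hcb.const halt x (-s)
  have h3 := d_act hA hcb.smooth (c (-s)) (c s • x)
  rw [h2] at h3
  have h4 : c (-s) • c s • x = x := by
    rw [← mul_smul, ← hcb.add, neg_add_cancel, hcb.zero, one_smul]
  rw [h3, h4, h0, ContinuousLinearMap.zero_comp]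

/-- a maximum of the momentum on `L` whose orbit lies in `L` -/
theorem close_max (hA : ActsSymplectically S G) (halt : ∀ (x : S.M) (u : S.E), S.om x u u = 0)
    {c : ℝ → G} {b : S.M → ℝ} (hcb : IsMomentum S c b) (hper : ∀ x : S.M, c 1 • x = x)
    {H : S.M → ℝ} (hH : S.Smooth H) {c₀ : ℝ} {L : Set S.M} (hL : RegularPart S H c₀ L)
    {x₁ : S.M} (hyL : ∀ s, c s • x₁ ∈ L) (hmax : ∀ x ∈ L, b x ≤ b x₁) (hne : S.d b x₁ ≠ 0) :
    ∃ (τ : ℝ → ℝ) (T : ℝ), S.IsPeriodic H (fun t => c (τ t) • x₁) T ∧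
      ∀ t, c (τ t) • x₁ ∈ L := by
  have hlag : ∀ s, ∃ l : ℝ, S.d b (c s • x₁) = l • S.d H (c s • x₁) := fun s =>
    lagrange hH hcb.smooth (hL.regular _ (hyL s)) (by
      filter_upwards [hL.isOpen _ (hyL s)] with x hx hHx
      rw [hcb.const halt x₁ s]
      exact hmax x (hx (hHx.trans (hL.level _ (hyL s)))))
  obtain ⟨τ, T, h⟩ := close_at hA halt hcb hper hH (fun s => hL.regular _ (hyL s)) hlag hne
  exact ⟨τ, T, h, fun t => hyL _⟩

/-- **The periodic orbit at a joint maximum.** -/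
theorem core (hA : ActsSymplectically S G) (halt : ∀ (x : S.M) (u : S.E), S.om x u u = 0)
    {c : ℝ → G} {b : S.M → ℝ} (hcb : IsMomentum S c b) (hper : ∀ x : S.M, c 1 • x = x)
    {Z : Type*} {e : Z → ℝ → G} {μ : Z → S.M → ℝ} (hZ : ∀ ζ, IsMomentum S (e ζ) (μ ζ))
    {H : S.M → ℝ} (hH : S.Smooth H) {c₀ : ℝ} {L : Set S.M} (hL : RegularPart S H c₀ L)
    (hinv : ∀ (g : G) (x : S.M), x ∈ L → (∀ ζ, μ ζ (g • x) = μ ζ x) → g • x ∈ L)
    {x₁ : S.M} (hx₁ : x₁ ∈ L)
    (hmax : ∀ (g : G) (x : S.M), x ∈ L → b (g • x) ≤ b x₁) (hne : S.d b x₁ ≠ 0) :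
    ∃ (τ : ℝ → ℝ) (T : ℝ), S.IsPeriodic H (fun t => c (τ t) • x₁) T ∧
      ∀ t, c (τ t) • x₁ ∈ L := by
  set y : ℝ → S.M := fun s => c s • x₁ with hy
  have hb : ∀ s, b (y s) = b x₁ := fun s => hcb.const halt x₁ s
  -- the momenta are constant along `y`
  have hμ : ∀ ζ s, μ ζ (y s) = μ ζ x₁ := by
    intro ζ s
    have h1 : ∀ s, HasDerivAt (fun s => μ ζ (y s)) 0 s := by
      intro s
      obtain ⟨X, hX, hv⟩ := hcb.velocity x₁ s
      obtain ⟨W, hW, hw⟩ := (hZ ζ).gen (y s)
      have h2 := hasDerivAt_comp (hZ ζ).smooth hX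
      refine h2.congr_deriv ?_
      have h3 : S.D (μ ζ) (y s) X = S.om (y s) X W := by
        have := hw X
        rw [om_skew halt] at this
        linarith
      have h4 : S.om (y s) X W = - S.D b (y s) W := hv W
      have h5 : S.D b (y s) W = 0 := by
        have h0 : e ζ 0 • y s = y s := by rw [(hZ ζ).zero, one_smul]
        have h6 : HasDerivAt (fun r => b (e ζ r • y s)) (S.D b (e ζ 0 • y s) W) 0 :=
          hasDerivAt_comp hcb.smooth hW
        rw [h0] at h6
        have h7 : IsLocalMax (fun r => b (e ζ r • y s)) 0 := by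
          refine Filter.Eventually.of_forall fun r => ?_
          show b (e ζ r • y s) ≤ b (e ζ 0 • y s)
          rw [h0, hb s, hy]
          simp only
          rw [← mul_smul]
          exact hmax _ _ hx₁
        exact h7.hasDerivAt_eq_zero h6
      show S.D (μ ζ) (y s) X = 0
      rw [h3, h4, h5, neg_zero]
    have h2 := is_const_of_deriv_eq_zero (fun s => (h1 s).differentiableAt)
      (fun s => (h1 s).deriv) s 0
    simpa [hy, hcb.zero] using h2
  have hyL : ∀ s, y s ∈ L := fun s => hinv (c s) x₁ hx₁ fun ζ => hμ ζ s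
  exact close_max hA halt hcb hper hH hL hyL (fun x hx => by
    have := hmax 1 x hx
    rwa [one_smul] at this) hne

/-- the same for a maximum at `g₁ • x₁`; the orbit is an orbit of a conjugate of the circle -/
theorem core_conj (hA : ActsSymplectically S G) (halt : ∀ (x : S.M) (u : S.E), S.om x u u = 0)
    {c : ℝ → G} {b : S.M → ℝ} (hcb : IsMomentum S c b) (hper : ∀ x : S.M, c 1 • x = x)
    {Z : Type*} {e : Z → ℝ → G} {μ : Z → S.M → ℝ} (hZ : ∀ ζ, IsMomentum S (e ζ) (μ ζ))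
    {H : S.M → ℝ} (hH : S.Smooth H) {c₀ : ℝ} {L : Set S.M} (hL : RegularPart S H c₀ L)
    (hinv : ∀ (g : G) (x : S.M), x ∈ L → (∀ ζ, μ ζ (g • x) = μ ζ x) → g • x ∈ L)
    {g₁ : G} {x₁ : S.M} (hx₁ : x₁ ∈ L)
    (hmax : ∀ (g : G) (x : S.M), x ∈ L → b (g • x) ≤ b (g₁ • x₁))
    (hne : S.d b (g₁ • x₁) ≠ 0) :
    ∃ (τ : ℝ → ℝ) (T : ℝ), S.IsPeriodic H (fun t => (g₁⁻¹ * c (τ t) * g₁) • x₁) T ∧
      ∀ t, (g₁⁻¹ * c (τ t) * g₁) • x₁ ∈ L := by
  refine core hA halt (hcb.conj hA g₁) (fun x => ?_) hZ hH hL hinv hx₁ (fun g x hx => ?_) ?_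
  · rw [mul_smul, mul_smul, hper, inv_smul_smul]
  · show b (g₁ • g • x) ≤ b (g₁ • x₁)
    rw [← mul_smul]
    exact hmax _ _ hx
  · intro h0
    apply hne
    rw [d_act hA hcb.smooth] at h0
    have h1 := dact_mul hA g₁ g₁⁻¹ (g₁ • x₁)
    rw [mul_inv_cancel, dact_one hA, inv_smul_smul] at h1
    have h2 : (S.d b (g₁ • x₁)).comp (ContinuousLinearMap.id ℝ S.E) = 0 := by
      rw [h1, ← ContinuousLinearMap.comp_assoc, h0, ContinuousLinearMap.zero_comp]
    rwa [ContinuousLinearMap.comp_id] at h2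

/-- **Compact groups.** -/
theorem compact_case [TopologicalSpace G] [CompactSpace G] [ContinuousSMul G S.M]
    (hA : ActsSymplectically S G) (halt : ∀ (x : S.M) (u : S.E), S.om x u u = 0)
    {c : ℝ → G} {b : S.M → ℝ} (hcb : IsMomentum S c b) (hper : ∀ x : S.M, c 1 • x = x)
    {Z : Type*} {e : Z → ℝ → G} {μ : Z → S.M → ℝ} (hZ : ∀ ζ, IsMomentum S (e ζ) (μ ζ))
    {H : S.M → ℝ} (hH : S.Smooth H) {c₀ : ℝ} {L : Set S.M} (hL : RegularPart S H c₀ L)
    (hinv : ∀ (g : G) (x : S.M), x ∈ L → (∀ ζ, μ ζ (g • x) = μ ζ x) → g • x ∈ L)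
    (hN : ∀ (g : G) (x : S.M), x ∈ L → S.d b (g • x) = 0 → b (g • x) = 0)
    (hmove : ∃ x ∈ L, S.d b x ≠ 0) :
    ∃ (g₁ : G) (x₁ : S.M) (τ : ℝ → ℝ) (T : ℝ),
      S.IsPeriodic H (fun t => (g₁⁻¹ * c (τ t) * g₁) • x₁) T ∧
      ∀ t, (g₁⁻¹ * c (τ t) * g₁) • x₁ ∈ L := by
  obtain ⟨x₀, hx₀, hd₀⟩ := hmove
  have hcont : Continuous (fun p : G × S.M => b (p.1 • p.2)) :=
    hcb.smooth.continuous.comp continuous_smul
  have hcp : IsCompact ((univ : Set G) ×ˢ L) := isCompact_univ.prod hL.compact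
  have hnon : ((univ : Set G) ×ˢ L).Nonempty := ⟨(1, x₀), mem_univ _, hx₀⟩
  obtain ⟨⟨g₁, x₁⟩, ⟨-, hx₁⟩, hmax⟩ := hcp.exists_isMaxOn hnon hcont.continuousOn
  obtain ⟨⟨g₂, x₂⟩, ⟨-, hx₂⟩, hmin⟩ := hcp.exists_isMinOn hnon hcont.continuousOn
  have hmax' : ∀ (g : G) (x : S.M), x ∈ L → b (g • x) ≤ b (g₁ • x₁) := fun g x hx =>
    hmax (a := (g, x)) ⟨mem_univ _, hx⟩
  have hmin' : ∀ (g : G) (x : S.M), x ∈ L → b (g₂ • x₂) ≤ b (g • x) := fun g x hx =>
    hmin (a := (g, x)) ⟨mem_univ _, hx⟩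
  by_cases h1 : S.d b (g₁ • x₁) = 0
  · by_cases h2 : S.d b (g₂ • x₂) = 0
    · -- the momentum vanishes identically on `G L`
      have e1 := hN g₁ x₁ hx₁ h1
      have e2 := hN g₂ x₂ hx₂ h2
      have h0 : ∀ (g : G) (x : S.M), x ∈ L → b (g • x) = 0 := fun g x hx =>
        le_antisymm (e1 ▸ hmax' g x hx) (e2 ▸ hmin' g x hx)
      obtain ⟨τ, T, h, h'⟩ := core_conj hA halt hcb hper hZ hH hL hinv (g₁ := 1) (x₁ := x₀) hx₀
        (fun g x hx => by rw [h0 g x hx, h0 1 x₀ hx₀]) (by rwa [one_smul])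
      exact ⟨1, x₀, τ, T, h, h'⟩
    · have h4 : ∀ x : S.M, c (-1) • x = x := by
        intro x
        have h3 : c (-1) • (c 1 • x) = x := by
          rw [← mul_smul, ← hcb.add, neg_add_cancel, hcb.zero, one_smul]
        rwa [hper] at h3
      have h5 : S.d (fun x => - b x) (g₂ • x₂) ≠ 0 := by
        intro h3
        apply h2
        have e : S.d (fun x => - b x) (g₂ • x₂) = - S.d b (g₂ • x₂) :=
          ((Sys.hasD hcb.smooth (g₂ • x₂)).neg).mfderiv
        rw [e, neg_eq_zero] at h3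
        exact h3
      obtain ⟨τ, T, h, h'⟩ := core_conj hA halt hcb.neg h4 hZ hH hL hinv
        (g₁ := g₂) (x₁ := x₂) hx₂ (fun g x hx => neg_le_neg (hmin' g x hx)) h5
      exact ⟨g₂, x₂, fun t => - τ t, T, h, h'⟩
  · obtain ⟨τ, T, h, h'⟩ := core_conj hA halt hcb hper hZ hH hL hinv (g₁ := g₁) (x₁ := x₁) hx₁
      hmax' h1
    exact ⟨g₁, x₁, τ, T, h, h'⟩

end Pool.Agent.H15.WM
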