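import Mathlib
import Pool.Agent.H15.WM.Core
import Pool.Graph.R_seed8.Helper186.Hamiltonian

/-! Integrals of a one-form over families of loops. -/

open scoped Topology ContDiff Manifold
open Set Filter Bundle Pool.Agent.Helper186

noncomputable section

namespace Pool.Agent.H15.WM

variable {E : Type*} [NormedAddCommGroup E] [NormedSpace ℝ E] [FiniteDimensional ℝ E]
  {M : Type*} [TopologicalSpace M] [ChartedSpace E M] [IsManifold 𝓘(ℝ, E) ∞ M]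
  {F : Type*} [NormedAddCommGroup F] [NormedSpace ℝ F] [FiniteDimensional ℝ F]
  {N : Type*} [TopologicalSpace N] [ChartedSpace F N] [IsManifold 𝓘(ℝ, F) ∞ N]

/-- the integral of `θ` over the curve `s ↦ y s`, `0 ≤ s ≤ 1` -/
def act (θ : (x : M) → TangentSpace 𝓘(ℝ, E) x →L[ℝ] ℝ) (y : ℝ → M) : ℝ :=
  ∫ s in (0:ℝ)..1, θ (y s) (mfderiv 𝓘(ℝ, ℝ) 𝓘(ℝ, E) y s (1 : ℝ))

/-- the value of `θ` on the velocity, as a function of the curve -/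
def vel (θ : (x : M) → TangentSpace 𝓘(ℝ, E) x →L[ℝ] ℝ) {X : Type*} [NormedAddCommGroup X]
    [NormedSpace ℝ X] {P : Type*} [TopologicalSpace P] [ChartedSpace X P] (c : P → M) (p : P)
    (u : TangentSpace 𝓘(ℝ, X) p) : ℝ :=
  θ (c p) (mfderiv 𝓘(ℝ, X) 𝓘(ℝ, E) c p u)

lemma contMDiff_act {θ : (x : M) → TangentSpace 𝓘(ℝ, E) x →L[ℝ] ℝ} (hθ : SmoothForm θ)
    {i : ℝ × N → M} (hi : ContMDiff (𝓘(ℝ, ℝ).prod 𝓘(ℝ, F)) 𝓘(ℝ, E) ∞ i) :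
    ContMDiff (𝓘(ℝ, ℝ).prod 𝓘(ℝ, F)) 𝓘(ℝ, ℝ) ∞
      (fun q : ℝ × N => θ (i q) (dS 𝓘(ℝ, E) i q.1 q.2)) := fun q =>
  hθ.comp (contMDiffAt_dS isOpen_univ hi.contMDiffOn (mem_univ q)) le_rfl

/-- **Variation of the integral over loops.** -/
theorem mfderiv_act {θ : (x : M) → TangentSpace 𝓘(ℝ, E) x →L[ℝ] ℝ} (hθ : SmoothForm θ)
    {i : ℝ × N → M} (hi : ContMDiff (𝓘(ℝ, ℝ).prod 𝓘(ℝ, F)) 𝓘(ℝ, E) ∞ i)
    (hloop : ∀ n, i (1, n) = i (0, n)) {n : N} {u : TangentSpace 𝓘(ℝ, F) n} {R : ℝ → ℝ}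
    (hR : ∀ s ∈ uIcc (0:ℝ) 1, HasDerivAt R
      (extDer 𝓘(ℝ, E) θ (i (s, n)) (dS 𝓘(ℝ, E) i s n) (dX 𝓘(ℝ, E) 𝓘(ℝ, F) i s n u)) s) :
    (show ℝ from mfderiv 𝓘(ℝ, F) 𝓘(ℝ, ℝ) (fun n => act θ (fun s => i (s, n))) n u) =
      R 0 - R 1 := by
  have hk := contMDiff_act hθ hi
  have ha : ∀ s ∈ uIcc (0:ℝ) 1, HasDerivAt
      (fun s => θ (i (s, n)) (dX 𝓘(ℝ, E) 𝓘(ℝ, F) i s n u) - R s)
      (show ℝ from mfderiv 𝓘(ℝ, F) 𝓘(ℝ, ℝ) (fun x => θ (i (s, x)) (dS 𝓘(ℝ, E) i s x)) n u) s := by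
    intro s hs
    have h1 := hasDerivAt_variation hθ isOpen_univ hi.contMDiffOn (mem_univ (s, n)) u
    refine (h1.sub (hR s hs)).congr_deriv ?_
    ring
  have h2 := integral_slice hk ha
  have h3 : θ (i (1, n)) (dX 𝓘(ℝ, E) 𝓘(ℝ, F) i 1 n u) =
      θ (i (0, n)) (dX 𝓘(ℝ, E) 𝓘(ℝ, F) i 0 n u) := by
    have e : (fun n => i (1, n)) = fun n => i (0, n) := funext hloop
    exact congrArg (fun c : N → M => vel θ c n u) e
  have h4 : (show ℝ from mfderiv 𝓘(ℝ, F) 𝓘(ℝ, ℝ) (fun n => act θ (fun s => i (s, n))) n u) =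
      (show ℝ from mfderiv 𝓘(ℝ, F) 𝓘(ℝ, ℝ)
        (fun x => ∫ s in (0:ℝ)..1, θ (i (s, x)) (dS 𝓘(ℝ, E) i s x)) n u) := rfl
  rw [h4, ← h2, h3]
  ring

/-- A function with vanishing differential on an open set is locally constant; uniform version. -/
lemma exists_nhds_const {n₀ : N} {V : Set N} (hV : IsOpen V) (hn₀ : n₀ ∈ V) :
    ∃ V' ∈ 𝓝 n₀, V' ⊆ V ∧ ∀ f : N → ℝ, ContMDiff 𝓘(ℝ, F) 𝓘(ℝ, ℝ) ∞ f →
      (∀ n ∈ V, ∀ u : TangentSpace 𝓘(ℝ, F) n, (show ℝ from mfderiv 𝓘(ℝ, F) 𝓘(ℝ, ℝ) f n u) = 0) →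
      ∀ n ∈ V', f n = f n₀ := by
  set φ := extChartAt 𝓘(ℝ, F) n₀ with hφ
  have h0 : φ n₀ ∈ φ.target ∩ φ.symm ⁻¹' V :=
    ⟨mem_extChartAt_target n₀, by rw [mem_preimage, hφ, extChartAt_to_inv]; exact hn₀⟩
  have hopen : IsOpen (φ.target ∩ φ.symm ⁻¹' V) :=
    (continuousOn_extChartAt_symm n₀).isOpen_inter_preimage (isOpen_extChartAt_target n₀) hV
  obtain ⟨δ, hδ, hball⟩ := Metric.isOpen_iff.1 hopen _ h0
  refine ⟨φ.source ∩ φ ⁻¹' Metric.ball (φ n₀) δ, ?_, ?_, ?_⟩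
  · refine Filter.inter_mem (extChartAt_source_mem_nhds n₀) ?_
    exact (continuousAt_extChartAt n₀).preimage_mem_nhds (Metric.ball_mem_nhds _ hδ)
  · rintro n ⟨hn, hnb⟩
    have h1 := (hball hnb).2
    rwa [mem_preimage, φ.left_inv hn] at h1
  · rintro f hf hf0 n ⟨hn, hnb⟩
    have h1 : ∀ z ∈ Metric.ball (φ n₀) δ, HasFDerivAt (f ∘ φ.symm) (0 : F →L[ℝ] ℝ) z := by
      intro z hz
      have h2 : MDifferentiableAt 𝓘(ℝ, F) 𝓘(ℝ, F) φ.symm z :=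
        ((contMDiffOn_extChartAt_symm (n := ∞) n₀).contMDiffAt
          ((isOpen_extChartAt_target n₀).mem_nhds (hball hz).1)).mdifferentiableAt (by simp)
      have h3 : MDifferentiableAt 𝓘(ℝ, F) 𝓘(ℝ, ℝ) f (φ.symm z) := hf.mdifferentiableAt (by simp)
      have h4 := HasMFDerivAt.comp z h3.hasMFDerivAt h2.hasMFDerivAt
      have h5 := h4.hasFDerivAt
      have h6 : ((mfderiv 𝓘(ℝ, F) 𝓘(ℝ, ℝ) f (φ.symm z)).comp
          (mfderiv 𝓘(ℝ, F) 𝓘(ℝ, F) φ.symm z) : F →L[ℝ] ℝ) = 0 := by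
        refine ContinuousLinearMap.ext fun w => ?_
        exact hf0 _ (hball hz).2 _
      exact h5.congr_fderiv h6
    have h7 := (convex_ball (φ n₀) δ).is_const_of_fderivWithin_eq_zero (𝕜 := ℝ)
      (f := f ∘ φ.symm)
      (fun z hz => (h1 z hz).differentiableAt.differentiableWithinAt)
      (fun z hz => by
        rw [fderivWithin_of_isOpen Metric.isOpen_ball hz, (h1 z hz).fderiv])
      hnb (Metric.mem_ball_self hδ)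
    simp only [Function.comp] at h7
    rwa [φ.left_inv hn, hφ, extChartAt_to_inv] at h7

end Pool.Agent.H15.WM
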