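import Mathlib
import Pool.Agent.H15.WM.LieDefs
import Pool.Agent.H15.WM.Loop

/-! The integral of a primitive of the form over the orbits of the conjugates of a circle. -/

open scoped Topology ContDiff Manifold
open Set Filter Bundle Pool.Agent.Helper186 Pool.Agent.X167.W Pool.Agent.H21.WS

noncomputable section

namespace Pool.Agent.H15.WM

universe u

variable {S : Sys.{u}} {F : Type*} [NormedAddCommGroup F] [NormedSpace ℝ F]
  {K : Type*} [TopologicalSpace K] [ChartedSpace F K] [Group K]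
  [MulAction K S.M] {J : F → S.M → ℝ}

lemma HamAction.contMDiff (hK : HamAction S K J) :
    ContMDiff (𝓘(ℝ, F).prod 𝓘(ℝ, S.E)) 𝓘(ℝ, S.E) ∞ (fun p : K × S.M => p.1 • p.2) :=
  hK.smooth

/-- the derivative at `k` of `k ↦ k • x` -/
def dorb (S : Sys.{u}) (F : Type*) [NormedAddCommGroup F] [NormedSpace ℝ F]
    {K : Type*} [TopologicalSpace K] [ChartedSpace F K] [Group K]
    [MulAction K S.M] (k : K) (x : S.M) : F →L[ℝ] S.E :=
  mfderiv 𝓘(ℝ, F) 𝓘(ℝ, S.E) (fun k : K => k • x) k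

lemma hasDorb (hK : HamAction S K J) (k : K) (x : S.M) :
    HasMFDerivAt 𝓘(ℝ, F) 𝓘(ℝ, S.E) (fun k : K => k • x) k (dorb S F k x) :=
  ((hK.contMDiff.comp (contMDiff_id.prodMk contMDiff_const)).mdifferentiableAt
    (by simp) (x := k)).hasMFDerivAt

lemma mom' (hK : HamAction S K J) (ζ : F) (x : S.M) (v : S.E) :
    S.om x (dorb S F (1 : K) x ζ) v = - S.D (J ζ) x v := hK.mom ζ x v

lemma IsCircle.zero {e : ℝ → K} {η : F} (he : IsCircle S e η) : e 0 = 1 := by
  have := he.add 0 0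
  simpa using this

lemma IsCircle.isMomentum (hK : HamAction S K J) {e : ℝ → K} {η : F} (he : IsCircle S e η) :
    IsMomentum S e (J η) where
  add := he.add
  smooth := hK.mom_smooth η
  gen x := by
    refine ⟨dorb S F (1 : K) x η, ?_, mom' hK η x⟩
    have h1 : HasMFDerivAt 𝓘(ℝ, F) 𝓘(ℝ, S.E) (fun k : K => k • x) (e 0) (dorb S F (1 : K) x) := by
      rw [he.zero]
      exact hasDorb hK 1 x
    have h2 := HasMFDerivAt.comp (0 : ℝ) h1 he.velocity
    refine h2.congr_mfderiv ?_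
    refine ContinuousLinearMap.ext fun (r : ℝ) => ?_
    show dorb S F (1 : K) x (r • η) = r • dorb S F (1 : K) x η
    rw [map_smul]

/-- `d/dk (k • x) = ζ_M (k • x)` for some `ζ` -/
lemma exists_dorb [LieGroup 𝓘(ℝ, F) ∞ K] (hK : HamAction S K J) (k : K) (u : F) :
    ∃ ζ : F, ∀ x : S.M, dorb S F k x u = dorb S F (1 : K) (k • x) ζ := by
  have hr : ContMDiff 𝓘(ℝ, F) 𝓘(ℝ, F) ∞ (fun h : K => h * k⁻¹) := contMDiff_mul_right
  have h1 : HasMFDerivAt 𝓘(ℝ, F) 𝓘(ℝ, F) (fun h : K => h * k⁻¹) k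
    (mfderiv 𝓘(ℝ, F) 𝓘(ℝ, F) (fun h : K => h * k⁻¹) k) :=
    (hr.mdifferentiableAt (by simp)).hasMFDerivAt
  refine ⟨(mfderiv 𝓘(ℝ, F) 𝓘(ℝ, F) (fun h : K => h * k⁻¹) k u : F), fun x => ?_⟩
  have h0 : k * k⁻¹ = 1 := mul_inv_cancel k
  have h2 : HasMFDerivAt 𝓘(ℝ, F) 𝓘(ℝ, S.E) (fun h : K => h • (k • x)) (k * k⁻¹)
      (dorb S F (1 : K) (k • x)) := by
    rw [h0]
    exact hasDorb hK 1 (k • x)
  have h3 := HasMFDerivAt.comp k h2 h1
  have e : (fun h : K => h • (k • x)) ∘ (fun h : K => h * k⁻¹) = fun h : K => h • x := by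
    funext h
    simp [← mul_smul]
  rw [e] at h3
  have h4 := hasMFDerivAt_unique (hasDorb hK k x) h3
  exact DFunLike.congr_fun h4 u

/-- the integral of `θ` over the closed curve `s ↦ g • e s • y` -/
abbrev loopInt (θ : OneForm S) (e : ℝ → K) (g : K) (y : S.M) : ℝ :=
  act θ (fun s => g • e s • y)

section

variable {e : ℝ → K} {η : F}

lemma smooth_loops (hK : HamAction S K J) (he : IsCircle S e η) (g : K) :
    ContMDiff (𝓘(ℝ, ℝ).prod 𝓘(ℝ, S.E)) 𝓘(ℝ, S.E) ∞ (fun p : ℝ × S.M => g • e p.1 • p.2) :=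
  hK.contMDiff.comp (contMDiff_const.prodMk
    (hK.contMDiff.comp ((he.smooth.comp contMDiff_fst).prodMk contMDiff_snd)))

lemma smooth_loops' (hK : HamAction S K J) (he : IsCircle S e η) (y : S.M) :
    ContMDiff (𝓘(ℝ, ℝ).prod 𝓘(ℝ, F)) 𝓘(ℝ, S.E) ∞ (fun p : ℝ × K => p.2 • e p.1 • y) :=
  hK.contMDiff.comp (contMDiff_snd.prodMk
    (hK.contMDiff.comp ((he.smooth.comp contMDiff_fst).prodMk contMDiff_const)))

/-- the velocity of `s ↦ g • e s • y` -/
lemma velocity_loop (hK : HamAction S K J) (he : IsCircle S e η) (g : K) (y : S.M) (s : ℝ) :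
    ∃ X : S.E, S.Velocity (fun r => g • e r • y) s (dact S g (e s • y) X) ∧
      ∀ v, S.om (e s • y) X v = - S.D (J η) (e s • y) v := by
  obtain ⟨X, hX, hv⟩ := (he.isMomentum hK).velocity y s
  refine ⟨X, ?_, hv⟩
  have h1 := HasMFDerivAt.comp s (hasDact hK.acts g (e s • y)) hX
  refine h1.congr_mfderiv ?_
  refine ContinuousLinearMap.ext fun (r : ℝ) => ?_
  show dact S g (e s • y) (r • X) = r • dact S g (e s • y) X
  rw [map_smul]

/-- Variation of the initial point. -/
lemma mfderiv_loop (hK : HamAction S K J) (halt : ∀ (x : S.M) (u : S.E), S.om x u u = 0)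
    (he : IsCircle S e η) {θ : OneForm S} (hθ : SmoothOne S θ) {U : Set S.M}
    (hU : ∀ x ∈ U, IsPrimitiveAt S θ x) (g : K) {y : S.M}
    (hy : ∀ s ∈ uIcc (0:ℝ) 1, g • e s • y ∈ U) (u : TangentSpace 𝓘(ℝ, S.E) y) :
    (show ℝ from mfderiv 𝓘(ℝ, S.E) 𝓘(ℝ, ℝ) (fun y => loopInt θ e g y) y u) =
      S.D (J η) y u := by
  have hi := smooth_loops hK he g
  have hloop : ∀ y : S.M, g • e 1 • y = g • e 0 • y := fun y => by
    rw [he.period, he.zero, one_smul]
  have hcb := he.isMomentum hK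
  have key := mfderiv_act (i := fun p : ℝ × S.M => g • e p.1 • p.2) hθ hi hloop (n := y) (u := u)
    (R := fun s => s * (-S.D (J η) y u)) (fun s hs => by
      have h1 : HasDerivAt (fun s => s * (-S.D (J η) y u)) (1 * (-S.D (J η) y u)) s :=
        (hasDerivAt_id s).mul_const _
      refine h1.congr_deriv ?_
      obtain ⟨X, hX, hv⟩ := velocity_loop hK he g y s
      have e1 : dS 𝓘(ℝ, S.E) (fun p : ℝ × S.M => g • e p.1 • p.2) s y = dact S g (e s • y) X := by
        have h2 := hX.mfderiv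
        have h3 := DFunLike.congr_fun h2 (1 : ℝ)
        refine h3.trans ?_
        show (1 : ℝ) • dact S g (e s • y) X = _
        rw [one_smul]
      have e2 : dX 𝓘(ℝ, S.E) 𝓘(ℝ, S.E) (fun p : ℝ × S.M => g • e p.1 • p.2) s y u =
          dact S g (e s • y) (dact S (e s) y u) := by
        have h2 := HasMFDerivAt.comp y (hasDact hK.acts g (e s • y)) (hasDact hK.acts (e s) y)
        exact DFunLike.congr_fun h2.mfderiv u
      have h5 : extDer 𝓘(ℝ, S.E) θ (g • e s • y) (dact S g (e s • y) X)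
          (dact S g (e s • y) (dact S (e s) y u)) =
          S.om (g • e s • y) (dact S g (e s • y) X) (dact S g (e s • y) (dact S (e s) y u)) :=
        hU _ (hy s hs) _ _
      have h6 : S.om (g • e s • y) (dact S g (e s • y) X)
          (dact S g (e s • y) (dact S (e s) y u)) = -S.D (J η) y u := by
        rw [om_dact hK.acts, hv]
        have h7 : (fun x => J η (e s • x)) = J η := funext fun x => hcb.const halt x s
        have h8 := d_act hK.acts (hK.mom_smooth η) (e s) y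
        rw [h7] at h8
        show -S.d (J η) (e s • y) (dact S (e s) y u) = _
        exact congrArg Neg.neg (DFunLike.congr_fun h8 u).symm
      rw [one_mul]
      refine (h6.symm.trans ?_)
      rw [← h5, ← e1, ← e2])
  refine key.trans ?_
  ring

/-- Variation of the group element. -/
lemma mfderiv_loop' [FiniteDimensional ℝ F] [LieGroup 𝓘(ℝ, F) ∞ K] (hK : HamAction S K J)
    (halt : ∀ (x : S.M) (u : S.E), S.om x u u = 0)
    (he : IsCircle S e η) {θ : OneForm S} (hθ : SmoothOne S θ) {U : Set S.M}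
    (hU : ∀ x ∈ U, IsPrimitiveAt S θ x) {g : K} (y : S.M)
    (hy : ∀ s ∈ uIcc (0:ℝ) 1, g • e s • y ∈ U) (u : TangentSpace 𝓘(ℝ, F) g) :
    (show ℝ from mfderiv 𝓘(ℝ, F) 𝓘(ℝ, ℝ) (fun g => loopInt θ e g y) g u) = 0 := by
  have hi := smooth_loops' hK he y
  have hloop : ∀ g : K, g • e 1 • y = g • e 0 • y := fun g => by
    rw [he.period, he.zero, one_smul]
  obtain ⟨ζ, hζ⟩ := exists_dorb hK g u
  have key := mfderiv_act (i := fun p : ℝ × K => p.2 • e p.1 • y) hθ hi hloop (n := g) (u := u)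
    (R := fun s => J ζ (g • e s • y)) (fun s hs => by
      obtain ⟨X, hX, hv⟩ := velocity_loop hK he g y s
      have h1 : HasDerivAt (fun s => J ζ (g • e s • y))
          (S.D (J ζ) (g • e s • y) (dact S g (e s • y) X)) s :=
        hasDerivAt_comp (hK.mom_smooth ζ) hX
      refine h1.congr_deriv ?_
      have e1 : dS 𝓘(ℝ, S.E) (fun p : ℝ × K => p.2 • e p.1 • y) s g = dact S g (e s • y) X := by
        have h2 := hX.mfderiv
        have h3 := DFunLike.congr_fun h2 (1 : ℝ)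
        refine h3.trans ?_
        show (1 : ℝ) • dact S g (e s • y) X = _
        rw [one_smul]
      have e2 : dX 𝓘(ℝ, S.E) 𝓘(ℝ, F) (fun p : ℝ × K => p.2 • e p.1 • y) s g u =
          dorb S F (1 : K) (g • e s • y) ζ := hζ (e s • y)
      have h5 : extDer 𝓘(ℝ, S.E) θ (g • e s • y) (dact S g (e s • y) X)
          (dorb S F (1 : K) (g • e s • y) ζ) =
          S.om (g • e s • y) (dact S g (e s • y) X) (dorb S F (1 : K) (g • e s • y) ζ) :=
        hU _ (hy s hs) _ _
      rw [om_skew halt, mom' hK, neg_neg] at h5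
      refine (h5.symm.trans ?_)
      rw [← e1, ← e2])
  refine key.trans ?_
  show J ζ (g • e 0 • y) - J ζ (g • e 1 • y) = 0
  rw [he.period, he.zero, one_smul, sub_self]

end

end Pool.Agent.H15.WM
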