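import Mathlib
import Pool.Agent.H15.WM.Lie

/-! The action minus the momentum is locally constant, and constant on sets with connected fibres. -/

open scoped Topology ContDiff Manifold
open Set Filter Bundle Pool.Agent.Helper186 Pool.Agent.X167.W Pool.Agent.H21.WS

noncomputable section

namespace Pool.Agent.H15.WM

universe u

section top

variable {X Y : Type*} [TopologicalSpace X] [TopologicalSpace Y]

/-- A function, locally constant near a compact set, which factors on it through a continuous map with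
preconnected image, is constant on the set. -/
lemma const_of_image [T2Space Y] {Q : Set X} (hQ : IsCompact Q) {p : X → Y} (hp : Continuous p)
    (hconn : IsPreconnected (p '' Q)) {f : X → ℝ} (hf : ∀ q ∈ Q, ∀ᶠ r in 𝓝 q, f r = f q)
    (hfac : ∀ q ∈ Q, ∀ r ∈ Q, p q = p r → f q = f r) : ∀ q ∈ Q, ∀ r ∈ Q, f q = f r := by
  intro q hq r hr
  by_contra hqr
  have hfcont : ContinuousOn f Q := by
    intro t ht
    have h1 : f =ᶠ[𝓝[Q] t] fun _ => f t := (hf t ht).filter_mono nhdsWithin_le_nhds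
    exact (continuousWithinAt_const.congr_of_eventuallyEq h1 rfl)
  set A : Set X := Q ∩ f ⁻¹' {f q} with hA
  set B : Set X := Q ∩ f ⁻¹' {f q}ᶜ with hB
  have hAc : IsCompact A := by
    obtain ⟨C, hC, hCe⟩ := (continuousOn_iff_isClosed.1 hfcont) {f q} isClosed_singleton
    have : A = Q ∩ C := by
      rw [hA, inter_comm, hCe, inter_comm]
    rw [this]
    exact hQ.inter_right hC
  have hBc : IsCompact B := by
    have hopen : IsOpen {t : X | ∀ᶠ x in 𝓝 t, f x = f q} := by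
      rw [isOpen_iff_mem_nhds]
      intro t ht
      exact (eventually_eventually_nhds.2 ht)
    have : B = Q ∩ {t : X | ∀ᶠ x in 𝓝 t, f x = f q}ᶜ := by
      ext t
      constructor
      · rintro ⟨h1, h2⟩
        refine ⟨h1, fun h3 => h2 ?_⟩
        exact (h3 : ∀ᶠ x in 𝓝 t, f x = f q).self_of_nhds
      · rintro ⟨h1, h2⟩
        refine ⟨h1, fun h3 => h2 ?_⟩
        have h4 : f t = f q := h3
        filter_upwards [hf t h1] with x hx
        rw [hx, h4]
    rw [this]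
    exact hQ.inter_right hopen.isClosed_compl
  have hA' : IsClosed (p '' A) := (hAc.image hp).isClosed
  have hB' : IsClosed (p '' B) := (hBc.image hp).isClosed
  have hcov : p '' Q ⊆ p '' A ∪ p '' B := by
    rintro _ ⟨x, hx, rfl⟩
    by_cases h : f x = f q
    · exact Or.inl ⟨x, ⟨hx, h⟩, rfl⟩
    · exact Or.inr ⟨x, ⟨hx, h⟩, rfl⟩
  obtain ⟨y, hy, ⟨x1, ⟨h1, h1'⟩, e1⟩, ⟨x2, ⟨h2, h2'⟩, e2⟩⟩ :=
    isPreconnected_closed_iff.1 hconn _ _ hA' hB' hcov
      ⟨p q, ⟨q, hq, rfl⟩, ⟨q, ⟨hq, rfl⟩, rfl⟩⟩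
      ⟨p r, ⟨r, hr, rfl⟩, ⟨r, ⟨hr, fun h => hqr h.symm⟩, rfl⟩⟩
  exact h2' ((hfac x2 h2 x1 h1 (e2.trans e1.symm)).trans h1')

end top

variable {S : Sys.{u}} {F : Type*} [NormedAddCommGroup F] [NormedSpace ℝ F]
  [FiniteDimensional ℝ F] {K : Type*} [TopologicalSpace K] [ChartedSpace F K] [Group K]
  [LieGroup 𝓘(ℝ, F) ∞ K] [MulAction K S.M] {J : F → S.M → ℝ}

/-- the action minus the momentum is locally constant -/
lemma loop_locConst (hK : HamAction S K J) (halt : ∀ (x : S.M) (u : S.E), S.om x u u = 0)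
    {e : ℝ → K} {η : F} (he : IsCircle S e η) {θ : OneForm S} (hθ : SmoothOne S θ) {U : Set S.M}
    (hUo : IsOpen U) (hU : ∀ x ∈ U, IsPrimitiveAt S θ x) {p₀ : K × S.M}
    (hp₀ : ∀ s ∈ uIcc (0:ℝ) 1, p₀.1 • e s • p₀.2 ∈ U) :
    ∀ᶠ p in 𝓝 p₀, loopInt θ e p.1 p.2 - J η p.2 = loopInt θ e p₀.1 p₀.2 - J η p₀.2 := by
  obtain ⟨g₀, y₀⟩ := p₀
  have hact : Continuous (fun p : K × S.M => p.1 • p.2) := hK.contMDiff.continuous
  have hcont : Continuous (fun q : (K × S.M) × ℝ => q.1.1 • e q.2 • q.1.2) :=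
    hact.comp ((continuous_fst.comp continuous_fst).prodMk (hact.comp
      ((he.smooth.continuous.comp continuous_snd).prodMk (continuous_snd.comp continuous_fst))))
  have h1 : ∀ᶠ p in 𝓝 ((g₀, y₀) : K × S.M), ∀ s ∈ uIcc (0:ℝ) 1, p.1 • e s • p.2 ∈ U :=
    isCompact_uIcc.eventually_forall_of_forall_eventually
      (P := fun (p : K × S.M) s => p.1 • e s • p.2 ∈ U)
      (fun s hs => hcont.continuousAt.eventually (hUo.mem_nhds (hp₀ s hs)))
  obtain ⟨N₁, N₂, hN₁, hg, hN₂, hy, hN⟩ := mem_nhds_prod_iff'.1 h1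
  obtain ⟨V₁, hV₁, hV₁N, hc₁⟩ := exists_nhds_const (F := F) (N := K) hN₁ hg
  obtain ⟨V₂, hV₂, hV₂N, hc₂⟩ := exists_nhds_const (F := S.E) (N := S.M) hN₂ hy
  filter_upwards [prod_mem_nhds hV₁ hV₂] with p hp
  have e1 : loopInt θ e p.1 p.2 = loopInt θ e g₀ p.2 := by
    refine hc₁ (fun g => loopInt θ e g p.2) ?_ (fun g hg u => ?_) p.1 hp.1
    · exact contMDiff_paramInt (contMDiff_act hθ (smooth_loops' hK he p.2)) 1
    · exact mfderiv_loop' hK halt he hθ hU p.2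
        (fun s hs => hN (mk_mem_prod hg (hV₂N hp.2)) s hs) u
  have hsm : ContMDiff 𝓘(ℝ, S.E) 𝓘(ℝ, ℝ) ∞ (fun y => loopInt θ e g₀ y) :=
    contMDiff_paramInt (contMDiff_act hθ (smooth_loops hK he g₀)) 1
  have e2 : loopInt θ e g₀ p.2 - J η p.2 = loopInt θ e g₀ y₀ - J η y₀ := by
    refine hc₂ (fun y => loopInt θ e g₀ y - J η y) ?_ (fun y hy u => ?_) p.2 hp.2
    · exact hsm.sub (hK.mom_smooth η)
    · have h2 := mfderiv_loop hK halt he hθ hU g₀
        (fun s hs => hN (mk_mem_prod hg hy) s hs) u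
      have h3 : HasMFDerivAt 𝓘(ℝ, S.E) 𝓘(ℝ, ℝ) (fun y => loopInt θ e g₀ y) y
        (mfderiv 𝓘(ℝ, S.E) 𝓘(ℝ, ℝ) (fun y => loopInt θ e g₀ y) y) :=
        (hsm.mdifferentiableAt (by simp)).hasMFDerivAt
      have h4 := (h3.sub (Sys.hasD (hK.mom_smooth η) y)).mfderiv
      refine (DFunLike.congr_fun h4 u).trans ?_
      exact sub_eq_zero.2 h2
  rw [e1]
  exact e2

end Pool.Agent.H15.WM
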