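import Mathlib
import Pool.Agent.H15.WM.Conn

/-! Orbits of circles with extremal momentum. -/

open scoped Topology ContDiff Manifold
open Set Filter Bundle Pool.Agent.Helper186 Pool.Agent.X167.W Pool.Agent.H21.WS

noncomputable section

namespace Pool.Agent.H15.WM

universe u

/-- the differential vanishes at a local maximum -/
lemma mfderiv_eq_zero_of_max {F : Type*} [NormedAddCommGroup F] [NormedSpace ℝ F]
    [FiniteDimensional ℝ F] {N : Type*} [TopologicalSpace N] [ChartedSpace F N]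
    [IsManifold 𝓘(ℝ, F) ∞ N] {f : N → ℝ} {n : N} (hf : MDifferentiableAt 𝓘(ℝ, F) 𝓘(ℝ, ℝ) f n)
    (hmax : ∀ n', f n' ≤ f n) (u : TangentSpace 𝓘(ℝ, F) n) :
    (show ℝ from mfderiv 𝓘(ℝ, F) 𝓘(ℝ, ℝ) f n u) = 0 := by
  have h1 := mfderiv_eq_fderiv_chart hf u
  have h2 : IsLocalMax (f ∘ (extChartAt 𝓘(ℝ, F) n).symm) (extChartAt 𝓘(ℝ, F) n n) := by
    refine Filter.Eventually.of_forall fun z => ?_
    simp only [Function.comp]
    rw [extChartAt_to_inv]
    exact hmax _
  rw [h2.fderiv_eq_zero] at h1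
  exact h1

variable {S : Sys.{u}} {F : Type*} [NormedAddCommGroup F] [NormedSpace ℝ F]
  [FiniteDimensional ℝ F] {K : Type*} [TopologicalSpace K] [ChartedSpace F K] [Group K]
  [LieGroup 𝓘(ℝ, F) ∞ K] [MulAction K S.M] {J : F → S.M → ℝ}

/-- The momenta are constant along the orbit if the momentum of the one-parameter group is maximal. -/
lemma momenta_const (hK : HamAction S K J) (halt : ∀ (x : S.M) (u : S.E), S.om x u u = 0)
    {c : ℝ → K} {b : S.M → ℝ} (hcb : IsMomentum S c b) {x : S.M}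
    (hmax : ∀ k : K, b (k • x) ≤ b x) (ζ : F) (s : ℝ) : J ζ (c s • x) = J ζ x := by
  have h1 : ∀ s, HasDerivAt (fun s => J ζ (c s • x)) 0 s := by
    intro s
    obtain ⟨X, hX, hv⟩ := hcb.velocity x s
    have h2 := hasDerivAt_comp (hK.mom_smooth ζ) hX
    refine h2.congr_deriv ?_
    set y := c s • x with hy
    have hby : b y = b x := hcb.const halt x s
    have h3 : S.D (J ζ) y X = S.om y X (dorb S F (1 : K) y ζ) := by
      have := mom' hK ζ y X
      rw [om_skew halt] at this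
      linarith
    have h4 : S.om y X (dorb S F (1 : K) y ζ) = - S.D b y (dorb S F (1 : K) y ζ) := hv _
    have h5 : S.D b y (dorb S F (1 : K) y ζ) = 0 := by
      have h6 : HasMFDerivAt 𝓘(ℝ, S.E) 𝓘(ℝ, ℝ) b ((1 : K) • y) (S.d b y) := by
        rw [one_smul]
        exact Sys.hasD hcb.smooth y
      have h7 := HasMFDerivAt.comp (1 : K) h6 (hasDorb hK 1 y)
      have h8 := mfderiv_eq_zero_of_max (f := b ∘ fun k : K => k • y) h7.mdifferentiableAt
        (fun k => by
          show b (k • y) ≤ b ((1 : K) • y)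
          rw [one_smul, hby, hy, ← mul_smul]
          exact hmax _) ζ
      rw [h7.mfderiv] at h8
      exact h8
    rw [h3, h4, h5, neg_zero]
  have h2 := is_const_of_deriv_eq_zero (fun s => (h1 s).differentiableAt)
    (fun s => (h1 s).deriv) s 0
  simpa [hcb.zero] using h2

/-- `k⁻¹ e(s) k x ∈ L` if the momentum at `k x` is maximal -/
lemma mem_of_max (hK : HamAction S K J) (halt : ∀ (x : S.M) (u : S.E), S.om x u u = 0)
    {e : ℝ → K} {b : S.M → ℝ} (hcb : IsMomentum S e b) {L : Set S.M}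
    (hinv : ∀ (k : K) (x : S.M), x ∈ L → (∀ ζ, J ζ (k • x) = J ζ x) → k • x ∈ L)
    {k : K} {x : S.M} (hx : x ∈ L) (hmax : ∀ k' : K, b (k' • x) ≤ b (k • x)) (s : ℝ) :
    (k⁻¹ * e s * k) • x ∈ L := by
  refine hinv _ x hx fun ζ => ?_
  refine momenta_const hK halt (hcb.conj hK.acts k) (x := x) (fun k' => ?_) ζ s
  show b (k • k' • x) ≤ b (k • x)
  rw [← mul_smul]
  exact hmax _

/-- the orbit of an unmoved point has action zero -/
lemma loopInt_eq_zero (hK : HamAction S K J) (halt : ∀ (x : S.M) (u : S.E), S.om x u u = 0)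
    (hnd : ∀ (x : S.M) (u : S.E), (∀ v, S.om x u v = 0) → u = 0)
    {e : ℝ → K} {η : F} (he : IsCircle S e η) {θ : OneForm S} (g : K) {y : S.M}
    (h0 : S.d (J η) y = 0) : loopInt θ e g y = 0 := by
  unfold loopInt act
  have h1 : ∀ s : ℝ, θ (g • e s • y)
      (mfderiv 𝓘(ℝ, ℝ) 𝓘(ℝ, S.E) (fun s => g • e s • y) s (1 : ℝ)) = 0 := by
    intro s
    obtain ⟨X, hX, hv⟩ := velocity_loop hK he g y s
    have h2 : X = 0 := by
      apply hnd (e s • y)
      intro v
      rw [hv]
      show - S.d (J η) (e s • y) v = 0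
      rw [(he.isMomentum hK).d_eq_zero hK.acts halt h0 s]
      exact neg_zero
    have h3 : mfderiv 𝓘(ℝ, ℝ) 𝓘(ℝ, S.E) (fun s => g • e s • y) s (1 : ℝ) = (0 : S.E) := by
      have h4 := DFunLike.congr_fun hX.mfderiv (1 : ℝ)
      refine h4.trans ?_
      show (1 : ℝ) • dact S g (e s • y) X = 0
      rw [h2, map_zero, smul_zero]
    refine (congrArg (θ (g • e s • y)) h3).trans ?_
    exact map_zero _
  simp only [h1, intervalIntegral.integral_zero]

/-- the action minus the momentum, as a function of `(k, x)` -/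
def fn (θ : OneForm S) (e : ℝ → K) (b : S.M → ℝ) (p : K × S.M) : ℝ :=
  loopInt θ e p.1⁻¹ (p.1 • p.2) - b (p.1 • p.2)

lemma fn_locConst (hK : HamAction S K J) (halt : ∀ (x : S.M) (u : S.E), S.om x u u = 0)
    {e : ℝ → K} {η : F} (he : IsCircle S e η) {θ : OneForm S} (hθ : SmoothOne S θ) {U : Set S.M}
    (hUo : IsOpen U) (hU : ∀ x ∈ U, IsPrimitiveAt S θ x) {p : K × S.M}
    (hp : ∀ s, (p.1⁻¹ * e s * p.1) • p.2 ∈ U) :
    ∀ᶠ q in 𝓝 p, fn θ e (J η) q = fn θ e (J η) p := by
  have h1 := loop_locConst hK halt he hθ hUo hU (p₀ := (p.1⁻¹, p.1 • p.2)) (fun s _ => by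
    have := hp s
    rwa [mul_smul, mul_smul] at this)
  have hinv : Continuous (fun k : K => k⁻¹) := (contMDiff_inv 𝓘(ℝ, F) ∞).continuous
  have hact : Continuous (fun p : K × S.M => p.1 • p.2) := hK.contMDiff.continuous
  have h2 : Continuous (fun q : K × S.M => (q.1⁻¹, q.1 • q.2)) :=
    (hinv.comp continuous_fst).prodMk hact
  exact h2.continuousAt.eventually h1

end Pool.Agent.H15.WM
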