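import Mathlib
import Pool.Agent.H15.WM.Ext

/-! A minimum, on the level set, of the maximum over the group. -/

open scoped Topology ContDiff Manifold
open Set Filter Bundle Pool.Agent.Helper186 Pool.Agent.X167.W Pool.Agent.H21.WS

noncomputable section

namespace Pool.Agent.H15.WM

universe u

section flat

variable {E F : Type*} [NormedAddCommGroup E] [NormedSpace ℝ E] [FiniteDimensional ℝ E]
  [NormedAddCommGroup F] [NormedSpace ℝ F]

/-- a curve in the level set of a function with a prescribed tangent vector -/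
lemma exists_curve {h : E → ℝ} {h' : E →L[ℝ] ℝ} {p : E} (hh : HasStrictFDerivAt h h' p)
    (hne : h' ≠ 0) {v : E} (hv : h' v = 0) :
    ∃ γ : ℝ → E, γ 0 = p ∧ HasDerivAt γ v 0 ∧ ∀ᶠ t in 𝓝 (0:ℝ), h (γ t) = h p := by
  have : CompleteSpace E := FiniteDimensional.complete ℝ E
  have hsurj : h'.range = ⊤ := by
    refine LinearMap.range_eq_top.2 ?_
    refine LinearMap.surjective (f := (h' : E →ₗ[ℝ] ℝ)) fun h => hne ?_
    ext x
    exact DFunLike.congr_fun h x
  have hvk : v ∈ h'.ker := hv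
  set c : ℝ → h'.ker := fun t => t • ⟨v, hvk⟩ with hc
  have hc0 : c 0 = 0 := by simp [hc]
  refine ⟨fun t => hh.implicitFunction h h' hsurj (h p) (c t), ?_, ?_, ?_⟩
  · show hh.implicitFunction h h' hsurj (h p) (c 0) = p
    rw [hc0]
    exact hh.implicitFunction_apply_image hsurj
  · have h1 : HasFDerivAt (hh.implicitFunction h h' hsurj (h p)) h'.ker.subtypeL (c 0) := by
      rw [hc0]
      exact (hh.to_implicitFunction hsurj).hasFDerivAt
    have h2 : HasDerivAt c (⟨v, hvk⟩ : h'.ker) 0 := by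
      have := (hasDerivAt_id (0:ℝ)).smul_const (⟨v, hvk⟩ : h'.ker)
      rw [one_smul] at this
      exact this
    exact h1.comp_hasDerivAt 0 h2
  · have h1 := hh.map_implicitFunction_eq hsurj
    have h2 : Tendsto (fun t : ℝ => (h p, c t)) (𝓝 0) (𝓝 (h p, 0)) := by
      have h3 : Continuous (fun t : ℝ => (h p, c t)) := by fun_prop
      have := h3.tendsto 0
      simpa [hc0] using this
    exact h2.eventually h1

/-- partial derivatives and difference quotients with a moving parameter -/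
lemma quot_nonneg {g : F × E → ℝ} {g' : F × E →L[ℝ] ℝ} {κ₀ : F} {p v : E}
    (hg : HasStrictFDerivAt g g' (κ₀, p)) {l : Filter ℝ} [l.NeBot] (hl : l ≤ 𝓝[>] 0)
    {κ : ℝ → F} (hκ : Tendsto κ l (𝓝 κ₀)) {γ : ℝ → E} (hγ0 : γ 0 = p) (hγ : HasDerivAt γ v 0)
    (hnn : ∀ᶠ t in l, g (κ t, p) ≤ g (κ t, γ t)) : 0 ≤ g' (0, v) := by
  have hl0 : l ≤ 𝓝 (0:ℝ) := hl.trans nhdsWithin_le_nhds
  have hpos : ∀ᶠ t in l, 0 < t := hl self_mem_nhdsWithin
  have hγt : Tendsto γ l (𝓝 p) := by
    have := hγ.continuousAt.tendsto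
    rw [hγ0] at this
    exact this.mono_left hl0
  -- the slope tends to `v`
  have hsl : Tendsto (fun t => t⁻¹ • (γ t - p)) l (𝓝 v) := by
    have h1 := (hasDerivAt_iff_tendsto_slope.1 hγ)
    have h2 : l ≤ 𝓝[≠] (0:ℝ) := hl.trans (nhdsWithin_mono _ fun t ht => ne_of_gt ht)
    have h3 := h1.mono_left h2
    refine h3.congr fun t => ?_
    rw [slope_def_module, hγ0, sub_zero]
  -- strict differentiability
  have ho : (fun t => g (κ t, γ t) - g (κ t, p) - g' (0, γ t - p)) =o[l] fun t => t := by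
    have h1 := hg.isLittleO
    have h2 : Tendsto (fun t => ((κ t, γ t), (κ t, p))) l (𝓝 ((κ₀, p), (κ₀, p))) :=
      (hκ.prodMk_nhds hγt).prodMk_nhds (hκ.prodMk_nhds tendsto_const_nhds)
    have h3 := h1.comp_tendsto h2
    have h4 : (fun t => g (κ t, γ t) - g (κ t, p) - g' (0, γ t - p)) =o[l]
        fun t => ((κ t, γ t) : F × E) - (κ t, p) := by
      refine h3.congr_left fun t => ?_
      simp [Function.comp]
    refine h4.trans_isBigO ?_
    have h5 : (fun t => t⁻¹ • (γ t - p)) =O[l] fun _ => (1 : ℝ) := hsl.isBigO_one ℝ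
    have h6 : (fun t : ℝ => t • (t⁻¹ • (γ t - p))) =O[l] fun t => t • (1 : ℝ) :=
      (Asymptotics.isBigO_refl (fun t : ℝ => t) l).smul h5
    refine Asymptotics.IsBigO.congr' (f₁ := fun t => (((0:F), t • (t⁻¹ • (γ t - p))) : F × E))
      (g₁ := fun t => t • (1:ℝ)) ?_ ?_ ?_
    · refine Asymptotics.IsBigO.of_norm_left ?_
      refine (h6.norm_left).congr_left fun t => ?_
      simp [Prod.norm_def]
    · filter_upwards [hpos] with t ht
      have : t • t⁻¹ • (γ t - p) = γ t - p := by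
        rw [smul_smul, mul_inv_cancel₀ ht.ne', one_smul]
      rw [this]
      simp
    · filter_upwards with t
      simp
  have hlim : Tendsto (fun t => t⁻¹ * (g (κ t, γ t) - g (κ t, p))) l (𝓝 (g' (0, v))) := by
    have h1 : Tendsto (fun t => t⁻¹ * (g (κ t, γ t) - g (κ t, p) - g' (0, γ t - p))) l (𝓝 0) := by
      have h2 := ho.tendsto_div_nhds_zero
      refine h2.congr fun t => ?_
      rw [div_eq_inv_mul]
    have h2 : Tendsto (fun t => g' ((0:F), t⁻¹ • (γ t - p))) l (𝓝 (g' (0, v))) :=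
      (g'.continuous.tendsto _).comp (tendsto_const_nhds.prodMk_nhds hsl)
    have h3 := h1.add h2
    rw [zero_add] at h3
    refine h3.congr fun t => ?_
    have h4 : g' ((0:F), t⁻¹ • (γ t - p)) = t⁻¹ * g' (0, γ t - p) := by
      have : ((0:F), t⁻¹ • (γ t - p)) = t⁻¹ • ((0:F), γ t - p) := by simp
      rw [this, map_smul, smul_eq_mul]
    rw [h4]
    ring
  refine ge_of_tendsto hlim ?_
  filter_upwards [hpos, hnn] with t ht hn
  exact mul_nonneg (inv_nonneg.2 ht.le) (sub_nonneg.2 hn)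

end flat

variable {S : Sys.{u}} {F : Type*} [NormedAddCommGroup F] [NormedSpace ℝ F]
  {K : Type*} [TopologicalSpace K] [ChartedSpace F K] [Group K]
  [LieGroup 𝓘(ℝ, F) ∞ K] [MulAction K S.M] {J : F → S.M → ℝ}

/-- The function `(κ, z) ↦ b (k • x)` in charts of the group and of the manifold. -/
lemma strict_chart (hK : HamAction S K J) {b : S.M → ℝ} (hb : S.Smooth b) (k₀ : K) (y : S.M) :
    ∃ g' : F × S.E →L[ℝ] ℝ, HasStrictFDerivAt
      (fun q : F × S.E => b ((extChartAt 𝓘(ℝ, F) k₀).symm q.1 • (extChartAt 𝓘(ℝ, S.E) y).symm q.2))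
      g' (extChartAt 𝓘(ℝ, F) k₀ k₀, extChartAt 𝓘(ℝ, S.E) y y) ∧
      ∀ w : S.E, g' (0, w) = S.d (fun x => b (k₀ • x)) y (dsymm y y w) := by
  set ψ := extChartAt 𝓘(ℝ, F) k₀ with hψ
  set φ := extChartAt 𝓘(ℝ, S.E) y with hφ
  set g : F × S.E → ℝ := fun q => b (ψ.symm q.1 • φ.symm q.2) with hg
  have h1 : ContMDiffOn 𝓘(ℝ, F × S.E) (𝓘(ℝ, F).prod 𝓘(ℝ, S.E)) ∞
      (fun q : F × S.E => (ψ.symm q.1, φ.symm q.2)) (ψ.target ×ˢ φ.target) := by
    apply ContMDiffOn.prodMk
    · exact (contMDiffOn_extChartAt_symm k₀).comp contDiff_fst.contMDiff.contMDiffOn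
        (fun q hq => hq.1)
    · exact (contMDiffOn_extChartAt_symm y).comp contDiff_snd.contMDiff.contMDiffOn
        (fun q hq => hq.2)
  have h2 : ContMDiffOn 𝓘(ℝ, F × S.E) 𝓘(ℝ, ℝ) ∞ g (ψ.target ×ˢ φ.target) :=
    (ContMDiff.comp hb hK.contMDiff).comp_contMDiffOn h1
  have h3 : ContDiffAt ℝ ∞ g (ψ k₀, φ y) := by
    have h4 := contMDiffOn_iff_contDiffOn.1 h2
    exact h4.contDiffAt (((isOpen_extChartAt_target k₀).prod (isOpen_extChartAt_target y)).mem_nhds
      ⟨mem_extChartAt_target k₀, mem_extChartAt_target y⟩)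
  refine ⟨fderiv ℝ g (ψ k₀, φ y), h3.hasStrictFDerivAt (by simp), fun w => ?_⟩
  have hbk : S.Smooth (fun x => b (k₀ • x)) := ContMDiff.comp hb (hK.acts.smooth k₀)
  rw [← fderiv_inChart_apply hbk (mem_extChartAt_source y)]
  have h5 := ((h3.differentiableAt (by simp)).hasFDerivAt.comp (φ y)
    (hasFDerivAt_prodMk_right (ψ k₀) (φ y))).fderiv
  have h6 : (g ∘ fun z => (ψ k₀, z)) = inChart (fun x => b (k₀ • x)) y := by
    funext z
    show b (ψ.symm (ψ k₀) • φ.symm z) = b (k₀ • φ.symm z)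
    rw [hψ, extChartAt_to_inv]
  rw [h6] at h5
  rw [h5]
  rfl

/-- **Lagrange multipliers for the maximum over the group.** -/
theorem lagrange_max [CompactSpace K] (hK : HamAction S K J) {b H : S.M → ℝ} (hb : S.Smooth b)
    (hH : S.Smooth H) {c₀ : ℝ} {L : Set S.M} (hL : RegularPart S H c₀ L) {y : S.M} (hy : y ∈ L)
    (k₂ : K)
    (hmin : ∀ (k : K) (x : S.M), x ∈ L → (∀ k' : K, b (k' • x) ≤ b (k • x)) →
      b (k₂ • y) ≤ b (k • x))
    (huniq : ∀ k : K, (∀ k' : K, b (k' • y) ≤ b (k • y)) →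
      b (k • y) = b (k₂ • y) ∧ S.d (fun x => b (k • x)) y = S.d (fun x => b (k₂ • x)) y) :
    ∃ l : ℝ, S.d (fun x => b (k₂ • x)) y = l • S.d H y := by
  have hact : Continuous (fun p : K × S.M => p.1 • p.2) := hK.contMDiff.continuous
  have hcont : Continuous (fun p : K × S.M => b (p.1 • p.2)) := (ContMDiff.continuous hb).comp hact
  -- maximal elements
  have hex : ∀ x : S.M, ∃ k : K, ∀ k' : K, b (k' • x) ≤ b (k • x) := by
    intro x
    have h1 : Continuous (fun k : K => b (k • x)) :=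
      hcont.comp (continuous_id.prodMk continuous_const)
    obtain ⟨k, -, hk⟩ := isCompact_univ.exists_isMaxOn (univ_nonempty (α := K)) h1.continuousOn
    exact ⟨k, fun k' => hk (mem_univ k')⟩
  choose kk hkk using hex
  have key : ∀ v : S.E, S.d H y v = 0 → 0 ≤ S.d (fun x => b (k₂ • x)) y v := by
    intro v hv
    obtain ⟨w, rfl⟩ := exists_dsymm_eq y v
    set φ := extChartAt 𝓘(ℝ, S.E) y with hφ
    have hst : HasStrictFDerivAt (inChart H y) (fderiv ℝ (inChart H y) (φ y)) (φ y) :=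
      ((contDiffOn_inChart hH y).contDiffAt ((isOpen_extChartAt_target y).mem_nhds
        (mem_extChartAt_target y))).hasStrictFDerivAt (by simp)
    have h1 : fderiv ℝ (inChart H y) (φ y) w = 0 := by
      rw [fderiv_inChart_apply hH (mem_extChartAt_source y)]
      exact hv
    have hne : fderiv ℝ (inChart H y) (φ y) ≠ 0 := by
      intro h0
      apply hL.regular y hy
      ext u
      obtain ⟨w', rfl⟩ := exists_dsymm_eq y u
      rw [← fderiv_inChart_apply hH (mem_extChartAt_source y)]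
      exact DFunLike.congr_fun h0 w'
    obtain ⟨γ, hγ0, hγ, hγL⟩ := exists_curve hst hne h1
    have hys : φ.symm (φ y) = y := extChartAt_to_inv y
    have hx : Tendsto (fun t => φ.symm (γ t)) (𝓝 0) (𝓝 y) := by
      have h2 : ContinuousAt φ.symm (γ 0) := by
        rw [hγ0]
        exact continuousAt_extChartAt_symm y
      have h3 := h2.comp hγ.continuousAt
      have h4 : (φ.symm ∘ γ) 0 = y := by
        show φ.symm (γ 0) = y
        rw [hγ0, hys]
      have h5 := h3.tendsto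
      rw [h4] at h5
      exact h5
    have hxL : ∀ᶠ t in 𝓝 (0:ℝ), φ.symm (γ t) ∈ L := by
      filter_upwards [hx.eventually (hL.isOpen y hy), hγL] with t h2 h3
      apply h2
      have h4 : H (φ.symm (γ t)) = H (φ.symm (φ y)) := h3
      rw [h4, hys, hL.level y hy]
    -- an ultrafilter
    set l : Ultrafilter ℝ := Ultrafilter.of (𝓝[>] (0:ℝ)) with hl
    have hl' : (l : Filter ℝ) ≤ 𝓝[>] 0 := Ultrafilter.of_le _
    have hl0 : (l : Filter ℝ) ≤ 𝓝 0 := hl'.trans nhdsWithin_le_nhds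
    set kt : ℝ → K := fun t => kk (φ.symm (γ t)) with hkt
    obtain ⟨k₀, -, hk₀⟩ := isCompact_univ.ultrafilter_le_nhds (l.map kt) (by simp)
    have hk₀' : Tendsto kt l (𝓝 k₀) := hk₀
    have hxl : Tendsto (fun t => φ.symm (γ t)) l (𝓝 y) := hx.mono_left hl0
    -- the limit is maximal
    have hmaxk : ∀ k' : K, b (k' • y) ≤ b (k₀ • y) := by
      intro k'
      have h2 : Tendsto (fun t => b (k' • φ.symm (γ t))) l (𝓝 (b (k' • y))) :=
        (hcont.tendsto (k', y)).comp (tendsto_const_nhds.prodMk_nhds hxl)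
      have h3 : Tendsto (fun t => b (kt t • φ.symm (γ t))) l (𝓝 (b (k₀ • y))) :=
        (hcont.tendsto (k₀, y)).comp (hk₀'.prodMk_nhds hxl)
      exact le_of_tendsto_of_tendsto' h2 h3 fun t => hkk _ _
    obtain ⟨e1, e2⟩ := huniq k₀ hmaxk
    obtain ⟨g', hg, hg'⟩ := strict_chart hK hb k₀ y
    have h6 := quot_nonneg hg hl' (κ := fun t => extChartAt 𝓘(ℝ, F) k₀ (kt t))
      ((continuousAt_extChartAt k₀).tendsto.comp hk₀') hγ0 hγ (by
        have h7 : ∀ᶠ t in (l : Filter ℝ), kt t ∈ (extChartAt 𝓘(ℝ, F) k₀).source :=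
          hk₀'.eventually (extChartAt_source_mem_nhds k₀)
        filter_upwards [h7, hl0 hxL] with t ht htL
        rw [(extChartAt 𝓘(ℝ, F) k₀).left_inv ht, ← hφ, hys]
        have h8 := hmin (kt t) _ htL (hkk _)
        refine le_trans ?_ h8
        rw [← e1]
        exact hmaxk _)
    rw [hg', e2] at h6
    exact h6
  -- linear algebra
  obtain ⟨w, hw⟩ : ∃ w, S.d H y w ≠ 0 := by
    by_contra hno
    push Not at hno
    exact hL.regular y hy (ContinuousLinearMap.ext hno)
  have key0 : ∀ v : S.E, S.d H y v = 0 → S.d (fun x => b (k₂ • x)) y v = 0 := by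
    intro v hv
    refine le_antisymm ?_ (key v hv)
    have := key (-v) (by rw [map_neg, hv, neg_zero])
    rw [map_neg] at this
    linarith
  refine ⟨S.d (fun x => b (k₂ • x)) y w / S.d H y w, ?_⟩
  ext u
  have h1 := key0 (u - (S.d H y u / S.d H y w) • w) (by
    rw [map_sub, map_smul, smul_eq_mul]
    field_simp
    ring)
  rw [map_sub, map_smul, smul_eq_mul] at h1
  show S.d (fun x => b (k₂ • x)) y u = S.d (fun x => b (k₂ • x)) y w / S.d H y w * S.d H y u
  field_simp at h1 ⊢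
  linarith

end Pool.Agent.H15.WM
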