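import Mathlib
import Pool.Agent.H15.WM.Dan

/-! Periodic orbits on connected levels near which the form is exact. -/

open scoped Topology ContDiff Manifold
open Set Filter Bundle Pool.Agent.Helper186 Pool.Agent.X167.W Pool.Agent.H21.WS

noncomputable section

namespace Pool.Agent.H15.WM

universe u

variable {S : Sys.{u}} {F : Type*} [NormedAddCommGroup F] [NormedSpace ℝ F]
  [FiniteDimensional ℝ F] {K : Type*} [TopologicalSpace K] [ChartedSpace F K] [Group K]
  [LieGroup 𝓘(ℝ, F) ∞ K] [MulAction K S.M] {J : F → S.M → ℝ}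

/-- pairs `(k, x)`, `x ∈ L`, with `b (k • x)` maximal for given `x` -/
def maxSet (K : Type*) [Group K] {M : Type*} [MulAction K M] (b : M → ℝ) (L : Set M) :
    Set (K × M) :=
  {p | p.2 ∈ L ∧ ∀ k' : K, b (k' • p.2) ≤ b (p.1 • p.2)}

lemma isCompact_maxSet [CompactSpace K] (hK : HamAction S K J) {b : S.M → ℝ} (hb : Continuous b)
    {L : Set S.M} (hL : IsCompact L) : IsCompact (maxSet K b L) := by
  have hact : Continuous (fun p : K × S.M => p.1 • p.2) := hK.contMDiff.continuous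
  have h1 : maxSet K b L = ((univ : Set K) ×ˢ L) ∩
      ⋂ k' : K, {p : K × S.M | b (k' • p.2) ≤ b (p.1 • p.2)} := by
    ext p
    simp [maxSet]
  rw [h1]
  refine (isCompact_univ.prod hL).inter_right (isClosed_iInter fun k' => ?_)
  exact isClosed_le (hb.comp (hact.comp (continuous_const.prodMk continuous_snd)))
    (hb.comp hact)

/-- the action minus the momentum is constant on the set of extremal pairs -/
lemma fn_const [CompactSpace K] (hK : HamAction S K J)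
    (halt : ∀ (x : S.M) (u : S.E), S.om x u u = 0)
    {e : ℝ → K} {η : F} (he : IsCircle S e η) {θ : OneForm S} (hθ : SmoothOne S θ)
    {L : Set S.M} (hLc : IsCompact L) (hconn : IsPreconnected L)
    (hprim : ∀ᶠ x in 𝓝ˢ L, IsPrimitiveAt S θ x)
    {b : S.M → ℝ} (hb : Continuous b)
    (hfac : ∀ x ∈ L, ∀ k₁ k₂ : K, (∀ k' : K, b (k' • x) ≤ b (k₁ • x)) →
      (∀ k' : K, b (k' • x) ≤ b (k₂ • x)) → fn θ e (J η) (k₁, x) = fn θ e (J η) (k₂, x))
    (hmem : ∀ p ∈ maxSet K b L, ∀ s : ℝ, (p.1⁻¹ * e s * p.1) • p.2 ∈ L) :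
    ∀ p ∈ maxSet K b L, ∀ q ∈ maxSet K b L, fn θ e (J η) p = fn θ e (J η) q := by
  obtain ⟨U, hUo, hLU, hU⟩ := eventually_nhdsSet_iff_exists.1 hprim
  have hact : Continuous (fun p : K × S.M => p.1 • p.2) := hK.contMDiff.continuous
  have himg : Prod.snd '' (maxSet K b L) = L := by
    ext x
    constructor
    · rintro ⟨p, hp, rfl⟩
      exact hp.1
    · intro hx
      have h1 : Continuous (fun k : K => b (k • x)) :=
        (hb.comp hact).comp (continuous_id.prodMk continuous_const)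
      obtain ⟨k, -, hk⟩ := isCompact_univ.exists_isMaxOn (univ_nonempty (α := K)) h1.continuousOn
      exact ⟨(k, x), ⟨hx, fun k' => hk (mem_univ k')⟩, rfl⟩
  refine const_of_image (isCompact_maxSet hK hb hLc) continuous_snd (by rw [himg]; exact hconn)
    (fun p hp => fn_locConst hK halt he hθ hUo hU fun s => hLU (hmem p hp s)) ?_
  rintro ⟨k₁, x⟩ h₁ ⟨k₂, x'⟩ h₂ hx
  simp only at hx
  subst hx
  exact hfac x h₁.1 k₁ k₂ h₁.2 h₂.2

/-- **Connected levels near which the form is exact.** -/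
theorem exact_case [CompactSpace K] (hK : HamAction S K J)
    (halt : ∀ (x : S.M) (u : S.E), S.om x u u = 0)
    (hnd : ∀ (x : S.M) (u : S.E), (∀ v, S.om x u v = 0) → u = 0)
    {e : ℝ → K} {η : F} (he : IsCircle S e η)
    {H : S.M → ℝ} (hH : S.Smooth H) {c₀ : ℝ} {L : Set S.M} (hL : RegularPart S H c₀ L)
    (hconn : IsPreconnected L)
    (hinv : ∀ (k : K) (x : S.M), x ∈ L → (∀ ζ, J ζ (k • x) = J ζ x) → k • x ∈ L)
    {θ : OneForm S} (hθ : SmoothOne S θ) (hprim : ∀ᶠ x in 𝓝ˢ L, IsPrimitiveAt S θ x)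
    (hmax : ∀ x ∈ L, ∀ k₁ k₂ : K, (∀ k' : K, J η (k' • x) ≤ J η (k₁ • x)) →
      (∀ k' : K, J η (k' • x) ≤ J η (k₂ • x)) → fn θ e (J η) (k₁, x) = fn θ e (J η) (k₂, x))
    (hmin : ∀ x ∈ L, ∀ k₁ k₂ : K, (∀ k' : K, J η (k₁ • x) ≤ J η (k' • x)) →
      (∀ k' : K, J η (k₂ • x) ≤ J η (k' • x)) → fn θ e (J η) (k₁, x) = fn θ e (J η) (k₂, x))
    (hJ : ((∃ x ∈ L, ∀ k : K, J η (k • x) = J η x) ∧ ∃ x ∈ L, ∃ k : K, S.d (J η) (k • x) ≠ 0) ∨
      ((∀ x ∈ L, ∀ k₁ k₂ : K, (∀ k' : K, J η (k' • x) ≤ J η (k₁ • x)) →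
        (∀ k' : K, J η (k' • x) ≤ J η (k₂ • x)) → ∀ s, k₁⁻¹ * e s * k₁ = k₂⁻¹ * e s * k₂) ∧
      ∃ x ∈ L, ∃ k : K, (∀ k' : K, J η (k' • x) ≤ J η (k • x)) ∧ S.d (J η) (k • x) ≠ 0)) :
    ∃ (k : K) (x : S.M) (τ : ℝ → ℝ) (T : ℝ),
      S.IsPeriodic H (fun t => (k⁻¹ * e (τ t) * k) • x) T ∧
        ∀ t, (k⁻¹ * e (τ t) * k) • x ∈ L := by
  have hcb := he.isMomentum hK
  have hA := hK.acts
  set b : S.M → ℝ := J η with hb
  have hbc : Continuous b := (hK.mom_smooth η).continuous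
  have hact : Continuous (fun p : K × S.M => p.1 • p.2) := hK.contMDiff.continuous
  have hbact : Continuous (fun p : K × S.M => b (p.1 • p.2)) := hbc.comp hact
  have hper' : ∀ (k : K) (x : S.M), (k⁻¹ * e 1 * k) • x = x := fun k x => by
    rw [mul_smul, mul_smul, he.period, inv_smul_smul]
  -- the differential of `b ∘ k`
  have hdk : ∀ (k : K) (x : S.M), S.d b (k • x) ≠ 0 → S.d (fun x => b (k • x)) x ≠ 0 := by
    intro k x hne h0
    apply hne
    rw [d_act hA hcb.smooth] at h0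
    have h1 := dact_mul hA k k⁻¹ (k • x)
    rw [mul_inv_cancel, dact_one hA, inv_smul_smul] at h1
    have h2 : (S.d b (k • x)).comp (ContinuousLinearMap.id ℝ S.E) = 0 := by
      rw [h1, ← ContinuousLinearMap.comp_assoc, h0, ContinuousLinearMap.zero_comp]
    rwa [ContinuousLinearMap.comp_id] at h2
  -- a moved global maximum gives a periodic orbit
  have hclose : ∀ p ∈ maxSet K b L, (∀ q ∈ maxSet K b L, b (q.1 • q.2) ≤ b (p.1 • p.2)) →
      S.d b (p.1 • p.2) ≠ 0 → ∃ (k : K) (x : S.M) (τ : ℝ → ℝ) (T : ℝ),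
      S.IsPeriodic H (fun t => (k⁻¹ * e (τ t) * k) • x) T ∧
        ∀ t, (k⁻¹ * e (τ t) * k) • x ∈ L := by
    rintro ⟨k, x⟩ ⟨hx, hk⟩ hg hne
    obtain ⟨τ, T, h⟩ := close_max hA halt (hcb.conj hA k) (hper' k) hH hL
      (x₁ := x) (mem_of_max hK halt hcb hinv hx hk) (fun x' hx' => by
        obtain ⟨k', -, hk'⟩ := isCompact_univ.exists_isMaxOn (univ_nonempty (α := K))
          (hbact.comp (continuous_id.prodMk (continuous_const (y := x')))).continuousOn
        exact (hk' (mem_univ k)).trans (hg (k', x') ⟨hx', fun k'' => hk' (mem_univ k'')⟩))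
      (hdk k x hne)
    exact ⟨k, x, τ, T, h⟩
  by_contra hno
  have hPc := isCompact_maxSet hK hbc hL.compact
  have hPne : (maxSet K b L).Nonempty := by
    obtain ⟨x', hx'⟩ := hL.nonempty
    obtain ⟨k', -, hk'⟩ := isCompact_univ.exists_isMaxOn (univ_nonempty (α := K))
      (hbact.comp (continuous_id.prodMk (continuous_const (y := x')))).continuousOn
    exact ⟨(k', x'), hx', fun k'' => hk' (mem_univ k'')⟩
  obtain ⟨p₁, hp₁, hmax₁⟩ := hPc.exists_isMaxOn hPne hbact.continuousOn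
  have hmax₁' : ∀ q ∈ maxSet K b L, b (q.1 • q.2) ≤ b (p₁.1 • p₁.2) := fun q hq => hmax₁ hq
  have hun₁ : S.d b (p₁.1 • p₁.2) = 0 := by
    by_contra h
    exact hno (hclose p₁ hp₁ hmax₁' h)
  have hf := fn_const hK halt he hθ hL.compact hconn hprim hbc hmax
    (fun p hp => mem_of_max hK halt hcb hinv hp.1 hp.2)
  have hfun : ∀ p : K × S.M, S.d b (p.1 • p.2) = 0 → fn θ e b p = - b (p.1 • p.2) := by
    intro p hp
    unfold fn
    rw [loopInt_eq_zero hK halt hnd he _ hp]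
    ring
  have hf₁ := hfun p₁ hun₁
  rcases hJ with ⟨⟨x₀, hx₀, hk₀⟩, hmove⟩ | ⟨huniq, hmove⟩
  · -- the momentum does not depend on `k` at `x₀`
    have h1 : ((1 : K), x₀) ∈ maxSet K b L := ⟨hx₀, fun k' => by
      show b (k' • x₀) ≤ b ((1 : K) • x₀)
      rw [one_smul]
      exact (hk₀ k').le⟩
    set b' : S.M → ℝ := fun x => - b x with hb'
    have hb'c : Continuous b' := hbc.neg
    have hcb' := hcb.neg
    have hper'' : ∀ x : S.M, e (-1) • x = x := by
      intro x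
      have h3 : e (-1) • (e 1 • x) = x := by
        rw [← mul_smul, ← he.add, neg_add_cancel, he.zero, one_smul]
      rwa [he.period] at h3
    have h1' : ((1 : K), x₀) ∈ maxSet K b' L := ⟨hx₀, fun k' => by
      show - b (k' • x₀) ≤ - b ((1 : K) • x₀)
      rw [one_smul]
      exact neg_le_neg (hk₀ k').ge⟩
    have hP'c := isCompact_maxSet hK hb'c hL.compact
    have hb'act : Continuous (fun p : K × S.M => b' (p.1 • p.2)) := hb'c.comp hact
    obtain ⟨p₃, hp₃, hmax₃⟩ := hP'c.exists_isMaxOn ⟨_, h1'⟩ hb'act.continuousOn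
    have hmax₃' : ∀ q ∈ maxSet K b' L, b' (q.1 • q.2) ≤ b' (p₃.1 • p₃.2) := fun q hq => hmax₃ hq
    have hmem' : ∀ p ∈ maxSet K b' L, ∀ s : ℝ, (p.1⁻¹ * e s * p.1) • p.2 ∈ L := by
      intro p hp s
      have := mem_of_max hK halt hcb' hinv hp.1 hp.2 (-s)
      simpa using this
    have hun₃ : S.d b (p₃.1 • p₃.2) = 0 := by
      by_contra h
      have h5 : S.d (fun x => b' (p₃.1 • x)) p₃.2 ≠ 0 := by
        intro h6
        apply hdk p₃.1 p₃.2 h
        have h7 : S.Smooth (fun x => b (p₃.1 • x)) := ContMDiff.comp (hK.mom_smooth η)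
          (hA.smooth p₃.1)
        have e1 : S.d (fun x => - b (p₃.1 • x)) p₃.2 = - S.d (fun x => b (p₃.1 • x)) p₃.2 :=
          ((Sys.hasD h7 p₃.2).neg).mfderiv
        have h8 : S.d (fun x => - b (p₃.1 • x)) p₃.2 = 0 := h6
        rw [e1, neg_eq_zero] at h8
        exact h8
      obtain ⟨τ, T, h8, h9⟩ := close_max hA halt (hcb'.conj hA p₃.1) (fun x => by
          rw [mul_smul, mul_smul, hper'', inv_smul_smul]) hH hL
        (x₁ := p₃.2) (mem_of_max hK halt hcb' hinv hp₃.1 hp₃.2) (fun x' hx' => by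
          obtain ⟨k', -, hk'⟩ := isCompact_univ.exists_isMaxOn (univ_nonempty (α := K))
            (hb'act.comp (continuous_id.prodMk (continuous_const (y := x')))).continuousOn
          exact (hk' (mem_univ p₃.1)).trans
            (hmax₃' (k', x') ⟨hx', fun k'' => hk' (mem_univ k'')⟩)) h5
      exact hno ⟨p₃.1, p₃.2, fun t => - τ t, T, h8, h9⟩
    have hmin' : ∀ x ∈ L, ∀ k₁ k₂ : K, (∀ k' : K, b' (k' • x) ≤ b' (k₁ • x)) →
        (∀ k' : K, b' (k' • x) ≤ b' (k₂ • x)) →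
        fn θ e (J η) (k₁, x) = fn θ e (J η) (k₂, x) := fun x hx k₁ k₂ h₁ h₂ =>
      hmin x hx k₁ k₂ (fun k' => neg_le_neg_iff.1 (h₁ k')) (fun k' => neg_le_neg_iff.1 (h₂ k'))
    have hf' := fn_const hK halt he hθ hL.compact hconn hprim hb'c hmin' hmem'
    have hf₃ := hfun p₃ hun₃
    have e1 := hf _ h1 _ hp₁
    have e2 := hf' _ h1' _ hp₃
    -- all momenta are equal
    have h5 : b (p₁.1 • p₁.2) = b (p₃.1 • p₃.2) := by linarith
    obtain ⟨xm, hxm, km, hnem⟩ := hmove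
    have h6 : ∀ x ∈ L, ∀ k : K, b (p₃.1 • p₃.2) ≤ b (k • x) := by
      intro x hx k
      obtain ⟨k', -, hk'⟩ := isCompact_univ.exists_isMaxOn (univ_nonempty (α := K))
        (hb'act.comp (continuous_id.prodMk (continuous_const (y := x)))).continuousOn
      have h6 : b' (k • x) ≤ b' (p₃.1 • p₃.2) :=
        (hk' (mem_univ k)).trans (hmax₃' (k', x) ⟨hx, fun k'' => hk' (mem_univ k'')⟩)
      exact neg_le_neg_iff.1 h6
    have h7 : ∀ x ∈ L, ∀ k : K, b (k • x) ≤ b (p₁.1 • p₁.2) := by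
      intro x hx k
      obtain ⟨k', -, hk'⟩ := isCompact_univ.exists_isMaxOn (univ_nonempty (α := K))
        (hbact.comp (continuous_id.prodMk (continuous_const (y := x)))).continuousOn
      exact (hk' (mem_univ k)).trans (hmax₁' (k', x) ⟨hx, fun k'' => hk' (mem_univ k'')⟩)
    have h8 : b (p₁.1 • p₁.2) ≤ b (km • xm) := by
      rw [h5]
      exact h6 xm hxm km
    exact hno (hclose (km, xm) ⟨hxm, fun k' => (h7 xm hxm k').trans h8⟩
      (fun q hq => (h7 q.2 hq.1 q.1).trans h8) hnem)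
  · -- unique circles: the minimum of the maximal momentum
    obtain ⟨xm, hxm, km, hkm, hnem⟩ := hmove
    have hPm : (km, xm) ∈ maxSet K b L := ⟨hxm, hkm⟩
    -- the moved pair is not a global maximum
    have hlt : b (km • xm) < b (p₁.1 • p₁.2) := by
      refine lt_of_le_of_ne (hmax₁' _ hPm) fun h => hno (hclose _ hPm (fun q hq => ?_) hnem)
      show b (q.1 • q.2) ≤ b (km • xm)
      rw [h]
      exact hmax₁' q hq
    obtain ⟨p₂, hp₂, hmin₂⟩ := hPc.exists_isMinOn ⟨_, hPm⟩ hbact.continuousOn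
    have hmin₂' : ∀ q ∈ maxSet K b L, b (p₂.1 • p₂.2) ≤ b (q.1 • q.2) := fun q hq => hmin₂ hq
    have hne₂ : S.d b (p₂.1 • p₂.2) ≠ 0 := by
      intro h0
      have hf₂ := hfun p₂ h0
      have e1 := hf _ hp₁ _ hp₂
      have h3 := hmin₂' _ hPm
      have h4 : b (p₂.1 • p₂.2) ≤ b (km • xm) := h3
      linarith
    obtain ⟨k₂, x₂⟩ := p₂
    have hc := hcb.conj hA k₂
    have hyL := mem_of_max hK halt hcb hinv hp₂.1 hp₂.2
    have hconst : ∀ s, b (k₂ • (k₂⁻¹ * e s * k₂) • x₂) = b (k₂ • x₂) := fun s =>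
      hc.const halt x₂ s
    have hmaxs : ∀ s, ∀ k' : K, b (k' • (k₂⁻¹ * e s * k₂) • x₂) ≤
        b (k₂ • (k₂⁻¹ * e s * k₂) • x₂) := by
      intro s k'
      rw [hconst, ← mul_smul]
      exact hp₂.2 _
    have hlag : ∀ s, ∃ l : ℝ, S.d (fun x => b (k₂ • x)) ((k₂⁻¹ * e s * k₂) • x₂) =
        l • S.d H ((k₂⁻¹ * e s * k₂) • x₂) := by
      intro s
      refine lagrange_max hK (hK.mom_smooth η) hH hL (hyL s) k₂ (fun k x hx hk => ?_)
        (fun k hk => ?_)
      · show b (k₂ • (k₂⁻¹ * e s * k₂) • x₂) ≤ b (k • x)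
        rw [hconst]
        exact hmin₂' (k, x) ⟨hx, hk⟩
      · have h1 := huniq _ (hyL s) k k₂ hk (hmaxs s)
        refine ⟨le_antisymm (hmaxs s k) (hk k₂), ?_⟩
        set y := (k₂⁻¹ * e s * k₂) • x₂ with hy
        obtain ⟨X, hX, hv⟩ := (hcb.conj hA k).gen y
        obtain ⟨X', hX', hv'⟩ := hc.gen y
        have h2 : (fun s => (k⁻¹ * e s * k) • y) = fun s => (k₂⁻¹ * e s * k₂) • y := by
          funext r
          rw [h1 r]
        have h3 : X = X' := by
          have h4 : HasMFDerivAt 𝓘(ℝ, ℝ) 𝓘(ℝ, S.E) (fun s => (k⁻¹ * e s * k) • y) 0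
            ((1 : ℝ →L[ℝ] ℝ).smulRight X) := hX
          have h5 : HasMFDerivAt 𝓘(ℝ, ℝ) 𝓘(ℝ, S.E) (fun s => (k₂⁻¹ * e s * k₂) • y) 0
            ((1 : ℝ →L[ℝ] ℝ).smulRight X') := hX'
          rw [h2] at h4
          have h6 := hasMFDerivAt_unique h4 h5
          have h7 := DFunLike.congr_fun h6 (1 : ℝ)
          have h8 : (1 : ℝ) • X = (1 : ℝ) • X' := h7
          simpa using h8
        ext u
        have h5 := hv u
        have h6 := hv' u
        rw [h3] at h5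
        have h7 : - S.d (fun x => b (k • x)) y u = - S.d (fun x => b (k₂ • x)) y u :=
          h5.symm.trans h6
        exact neg_injective h7
    obtain ⟨τ, T, h⟩ := close_at hA halt hc (hper' k₂) hH (fun s => hL.regular _ (hyL s)) hlag
      (hdk k₂ x₂ hne₂)
    exact hno ⟨k₂, x₂, τ, T, h, fun t => hyL _⟩

end Pool.Agent.H15.WM
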