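import Mathlib
import Pool.Agent.H15.WM.LieDefs

/-! Maxima of a Hermitian form on the unit sphere. -/

open scoped Topology InnerProductSpace
open Set Module.End

noncomputable section

namespace Pool.Agent.H15.WM

variable {V : Type*} [NormedAddCommGroup V] [InnerProductSpace ℂ V]

variable [FiniteDimensional ℂ V]

lemma eigen_of_top {A : V →L[ℂ] V} (hA : IsSelfAdjoint A) {v : V} (hv : IsTopVector A v) :
    A v = ((⨆ x : { x : V // x ≠ 0 }, A.rayleighQuotient x : ℝ) : ℂ) • v := by
  have := FiniteDimensional.complete ℂ V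
  have hv0 : v ≠ 0 := by
    intro h
    have := hv.unit
    rw [h, norm_zero] at this
    exact zero_ne_one this
  have h1 := hA.hasEigenvector_of_isMaxOn hv0 (by
    intro w hw
    have hw' : ‖w‖ = 1 := by
      rw [mem_sphere_zero_iff_norm] at hw
      rw [hw, hv.unit]
    exact hv.max w hw')
  exact h1.apply_eq_smul

lemma reApply_of_eigen {A : V →L[ℂ] V} {v : V} (hv : ‖v‖ = 1) {r : ℝ} (h : A v = (r : ℂ) • v) :
    A.reApplyInnerSelf v = r := by
  rw [ContinuousLinearMap.reApplyInnerSelf_apply, h, inner_smul_left, inner_self_eq_norm_sq_to_K,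
    hv]
  simp

/-- The top vectors form a preconnected set. -/
lemma isPreconnected_top {A : V →L[ℂ] V} (hA : IsSelfAdjoint A) :
    IsPreconnected {v : V | IsTopVector A v} := by
  set r : ℝ := ⨆ x : { x : V // x ≠ 0 }, A.rayleighQuotient x with hr
  by_cases hne : ∃ v, IsTopVector A v
  · obtain ⟨v₀, hv₀⟩ := hne
    set W : Submodule ℂ V := LinearMap.ker ((A : V →ₗ[ℂ] V) - (r : ℂ) • LinearMap.id) with hW
    have hWmem : ∀ v, v ∈ W ↔ A v = (r : ℂ) • v := by
      intro v
      rw [hW, LinearMap.mem_ker]
      simp [sub_eq_zero]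
    have himg : {v : V | IsTopVector A v} = (fun w : W => (w : V)) '' Metric.sphere (0 : W) 1 := by
      ext v
      constructor
      · intro hv
        have hvt : IsTopVector A v := hv
        refine ⟨⟨v, (hWmem v).2 (eigen_of_top hA hvt)⟩, ?_, rfl⟩
        rw [mem_sphere_zero_iff_norm]
        exact hvt.unit
      · rintro ⟨⟨w, hw⟩, hw1, rfl⟩
        rw [mem_sphere_zero_iff_norm] at hw1
        have hw1' : ‖w‖ = 1 := hw1
        refine ⟨hw1', fun u hu => ?_⟩
        show A.reApplyInnerSelf u ≤ A.reApplyInnerSelf w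
        rw [reApply_of_eigen hw1' ((hWmem w).1 hw)]
        have h1 : A.reApplyInnerSelf v₀ = r := reApply_of_eigen hv₀.unit (eigen_of_top hA hv₀)
        rw [← h1]
        exact hv₀.max u hu
    rw [himg]
    refine IsPreconnected.image ?_ _ continuous_subtype_val.continuousOn
    have hv₀W : v₀ ∈ W := (hWmem v₀).2 (eigen_of_top hA hv₀)
    have hv₀0 : v₀ ≠ 0 := by
      intro h
      have := hv₀.unit
      rw [h, norm_zero] at this
      exact zero_ne_one this
    apply isPreconnected_sphere
    have h1 : 1 < Module.finrank ℝ W := by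
      have h2 : Module.finrank ℝ W = 2 * Module.finrank ℂ W := finrank_real_of_complex W
      have h3 : 0 < Module.finrank ℂ W := by
        rw [Module.finrank_pos_iff_exists_ne_zero]
        exact ⟨⟨v₀, hv₀W⟩, fun h => hv₀0 (congrArg Subtype.val h)⟩
      omega
    have h4 : FiniteDimensional ℝ W := FiniteDimensional.complexToReal W
    rw [← Module.finrank_eq_rank]
    exact_mod_cast h1
  · push Not at hne
    have : {v : V | IsTopVector A v} = ∅ := by
      ext v
      simp [hne v]
    rw [this]
    exact isPreconnected_empty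

/-- in dimension two, the largest eigenvalue of an operator which is not a multiple of the identity is
simple -/
lemma simpleTop_of_two (h2 : Module.finrank ℂ V = 2) {A : V →L[ℂ] V} (hA : IsSelfAdjoint A)
    (hns : ¬ ∃ c : ℂ, ∀ v, A v = c • v) : SimpleTop A := by
  intro u v hu hv
  by_contra hno
  push Not at hno
  obtain ⟨r, eu, ev⟩ : ∃ r : ℂ, A u = r • u ∧ A v = r • v :=
    ⟨_, eigen_of_top hA hu, eigen_of_top hA hv⟩
  have hli : LinearIndependent ℂ ![v, u] := by
    rw [LinearIndependent.pair_iff]
    intro s t hst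
    have ht : t = 0 := by
      by_contra ht
      apply hno (-(t⁻¹ * s))
      have h1 : t • u = -(s • v) := by
        rw [eq_neg_iff_add_eq_zero, add_comm]
        exact hst
      have h2 : u = t⁻¹ • (t • u) := by rw [smul_smul, inv_mul_cancel₀ ht, one_smul]
      rw [h2, h1, smul_neg, smul_smul, neg_smul]
    refine ⟨?_, ht⟩
    rw [ht, zero_smul, add_zero, smul_eq_zero] at hst
    rcases hst with h | h
    · exact h
    · exfalso
      have := hv.unit
      rw [h, norm_zero] at this
      exact zero_ne_one this
  have hspan : ⊤ ≤ Submodule.span ℂ (Set.range ![v, u]) := by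
    rw [hli.span_eq_top_of_card_eq_finrank (by rw [h2]; simp)]
  apply hns
  refine ⟨r, fun w => ?_⟩
  have hw : w ∈ Submodule.span ℂ (Set.range ![v, u]) := hspan trivial
  have e : Set.range ![v, u] = {v, u} := by
    ext x
    simp [eq_comm, or_comm]
  rw [e, Submodule.mem_span_pair] at hw
  obtain ⟨a, b, rfl⟩ := hw
  rw [map_add, map_smul, map_smul, eu, ev]
  module

end Pool.Agent.H15.WM
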