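import Mathlib
import Pool.Agent.H15.WM.Fin
import Pool.Agent.H15.WM.Herm

/-! Groups acting transitively on the unit sphere of a unitary representation. -/

open scoped Topology ContDiff Manifold InnerProductSpace
open Set Filter Bundle Pool.Agent.Helper186 Pool.Agent.X167.W Pool.Agent.H21.WS

noncomputable section

namespace Pool.Agent.H15.WM

universe u

variable {M : Type*} {K : Type*} [TopologicalSpace K] [Group K] [MulAction K M]
  {V : Type*} [NormedAddCommGroup V] [InnerProductSpace ℂ V] [FiniteDimensional ℂ V]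
  {ρ : K →* (V ≃ₗᵢ[ℂ] V)} {v₀ : V} {A : M → V →L[ℂ] V} {e : ℝ → K} {b : M → ℝ}

lemma SphereMomentum.apply (h : SphereMomentum ρ v₀ A e b) (k : K) (x : M) :
    b (k • x) = (A x).reApplyInnerSelf (ρ k⁻¹ v₀) := by
  rw [h.momentum, ContinuousLinearMap.reApplyInnerSelf_apply,
    ContinuousLinearMap.reApplyInnerSelf_apply]
  have h1 : ρ k (ρ k⁻¹ v₀) = v₀ := by
    have : (ρ k * ρ k⁻¹) v₀ = v₀ := by
      rw [← map_mul, mul_inv_cancel, map_one]
      rfl
    exact this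
  have h2 := h.equivariant k x (ρ k⁻¹ v₀)
  rw [h1] at h2
  rw [h2]
  conv_lhs => rw [← h1]
  rw [h1, ← (ρ k).inner_map_map (A x (ρ k⁻¹ v₀)) (ρ k⁻¹ v₀), h1]

lemma SphereMomentum.norm (h : SphereMomentum ρ v₀ A e b) (k : K) : ‖ρ k v₀‖ = 1 := by
  rw [(ρ k).norm_map, h.unit]

lemma SphereMomentum.surj (h : SphereMomentum ρ v₀ A e b) (v : V) (hv : ‖v‖ = 1) :
    ∃ k, ρ k⁻¹ v₀ = v := by
  obtain ⟨k, hk⟩ := h.transitive v hv
  exact ⟨k⁻¹, by rw [inv_inv, hk]⟩

lemma SphereMomentum.isTop (h : SphereMomentum ρ v₀ A e b) {k : K} {x : M} :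
    (∀ k' : K, b (k' • x) ≤ b (k • x)) ↔ IsTopVector (A x) (ρ k⁻¹ v₀) := by
  constructor
  · intro hk
    refine ⟨h.norm _, fun w hw => ?_⟩
    obtain ⟨k', rfl⟩ := h.surj w hw
    rw [← h.apply, ← h.apply]
    exact hk k'
  · intro hk k'
    rw [h.apply, h.apply]
    exact hk.max _ (h.norm _)

/-- the conjugates of the circle coincide if the vectors are proportional -/
lemma SphereMomentum.conj_eq (h : SphereMomentum ρ v₀ A e b) {k₁ k₂ : K} {z : ℂ}
    (hz : ρ k₁⁻¹ v₀ = z • ρ k₂⁻¹ v₀) (s : ℝ) : k₁⁻¹ * e s * k₁ = k₂⁻¹ * e s * k₂ := by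
  have h1 : ρ (k₂ * k₁⁻¹) v₀ = z • v₀ := by
    have h2 : ρ (k₂ * k₁⁻¹) v₀ = ρ k₂ (ρ k₁⁻¹ v₀) := by rw [map_mul]; rfl
    have h3 : ρ k₂ (ρ k₂⁻¹ v₀) = v₀ := by
      have : (ρ k₂ * ρ k₂⁻¹) v₀ = v₀ := by
        rw [← map_mul, mul_inv_cancel, map_one]
        rfl
      exact this
    rw [h2, hz, map_smul, h3]
  have h2 := h.commute _ ⟨z, h1⟩ s
  have h3 : k₁⁻¹ * e s * k₁ = k₂⁻¹ * ((k₂ * k₁⁻¹) * e s) * k₁ := by group
  rw [h3, h2]
  group

lemma SphereMomentum.neg (h : SphereMomentum ρ v₀ A e b) :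
    SphereMomentum ρ v₀ (fun x => - A x) e (fun x => - b x) where
  cont := h.cont
  unit := h.unit
  transitive := h.transitive
  commute := h.commute
  selfAdjoint x := (h.selfAdjoint x).neg
  equivariant k x v := by
    show - A (k • x) (ρ k v) = ρ k (- A x v)
    rw [h.equivariant, map_neg]
  momentum x := by
    rw [h.momentum]
    simp [ContinuousLinearMap.reApplyInnerSelf_apply]

section lie

variable {S : Sys.{u}} {F : Type*} [NormedAddCommGroup F] [NormedSpace ℝ F]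
  [FiniteDimensional ℝ F] {K : Type*} [TopologicalSpace K] [ChartedSpace F K] [Group K]
  [LieGroup 𝓘(ℝ, F) ∞ K] [MulAction K S.M] {J : F → S.M → ℝ}
  {V : Type*} [NormedAddCommGroup V] [InnerProductSpace ℂ V] [FiniteDimensional ℂ V]
  {ρ : K →* (V ≃ₗᵢ[ℂ] V)} {v₀ : V} {A : S.M → V →L[ℂ] V}

/-- the action minus the momentum is constant on the set of the `k` with maximal momentum -/
lemma fn_fibre [CompactSpace K] (hK : HamAction S K J)
    (halt : ∀ (x : S.M) (u : S.E), S.om x u u = 0)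
    {e : ℝ → K} {η : F} (he : IsCircle S e η) {θ : OneForm S} (hθ : SmoothOne S θ)
    {L : Set S.M} (hprim : ∀ᶠ x in 𝓝ˢ L, IsPrimitiveAt S θ x)
    {b : S.M → ℝ} (hbc : Continuous b) (h : SphereMomentum ρ v₀ A e b) {x : S.M}
    (hb : ∀ k₁ k₂ : K, b (k₁ • x) = b (k₂ • x) → J η (k₁ • x) = J η (k₂ • x))
    (hmem : ∀ k : K, (∀ k' : K, b (k' • x) ≤ b (k • x)) → ∀ s, (k⁻¹ * e s * k) • x ∈ L)
    (k₁ k₂ : K) (h₁ : ∀ k' : K, b (k' • x) ≤ b (k₁ • x))
    (h₂ : ∀ k' : K, b (k' • x) ≤ b (k₂ • x)) :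
    fn θ e (J η) (k₁, x) = fn θ e (J η) (k₂, x) := by
  obtain ⟨U, hUo, hLU, hU⟩ := eventually_nhdsSet_iff_exists.1 hprim
  have hact : Continuous (fun p : K × S.M => p.1 • p.2) := hK.contMDiff.continuous
  have hinv : Continuous (fun k : K => k⁻¹) := (contMDiff_inv 𝓘(ℝ, F) ∞).continuous
  have hbx : Continuous (fun k : K => b (k • x)) :=
    (hbc.comp hact).comp (continuous_id.prodMk continuous_const)
  set Q : Set K := {k | ∀ k' : K, b (k' • x) ≤ b (k • x)} with hQ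
  have hQc : IsCompact Q := by
    have : IsClosed Q := by
      have e1 : Q = ⋂ k' : K, {k : K | b (k' • x) ≤ b (k • x)} := by
        ext k
        simp [hQ]
      rw [e1]
      exact isClosed_iInter fun k' => isClosed_le continuous_const hbx
    exact this.isCompact
  have hp : Continuous (fun k : K => ρ k⁻¹ v₀) := (h.cont v₀).comp hinv
  have himg : (fun k : K => ρ k⁻¹ v₀) '' Q = {v | IsTopVector (A x) v} := by
    ext v
    constructor
    · rintro ⟨k, hk, rfl⟩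
      exact h.isTop.1 hk
    · intro hv
      have hv' : IsTopVector (A x) v := hv
      obtain ⟨k, rfl⟩ := h.surj v hv'.unit
      exact ⟨k, h.isTop.2 hv', rfl⟩
  refine const_of_image hQc hp (by rw [himg]; exact isPreconnected_top (h.selfAdjoint x))
    (f := fun k => fn θ e (J η) (k, x)) (fun k hk => ?_) (fun q hq r hr hqr => ?_) k₁ h₁ k₂ h₂
  · have h3 := fn_locConst hK halt he hθ hUo hU (p := (k, x)) (fun s => hLU (hmem k hk s))
    have h4 : Continuous (fun k : K => (k, x)) := continuous_id.prodMk continuous_const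
    exact (h4.tendsto k).eventually h3
  · have h5 : ∀ s, q⁻¹ * e s * q = r⁻¹ * e s * r := fun s =>
      h.conj_eq (z := 1) (by rw [one_smul]; exact hqr) s
    have h6 : b (q • x) = b (r • x) := by rw [h.apply, h.apply, hqr]
    have h7 : (fun s => q⁻¹ • e s • q • x) = fun s => r⁻¹ • e s • r • x := by
      funext s
      have h8 : ∀ k : K, k⁻¹ • e s • k • x = (k⁻¹ * e s * k) • x := fun k => by
        rw [mul_smul, mul_smul]
      rw [h8, h8, h5]
    show act θ (fun s => q⁻¹ • e s • q • x) - J η (q • x) =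
      act θ (fun s => r⁻¹ • e s • r • x) - J η (r • x)
    rw [h7, hb q r h6]

/-- **Groups acting transitively on the unit sphere.** -/
theorem sphere_case [CompactSpace K] (hK : HamAction S K J)
    (halt : ∀ (x : S.M) (u : S.E), S.om x u u = 0)
    (hnd : ∀ (x : S.M) (u : S.E), (∀ v, S.om x u v = 0) → u = 0)
    {e : ℝ → K} {η : F} (he : IsCircle S e η) (h : SphereMomentum ρ v₀ A e (J η))
    {H : S.M → ℝ} (hH : S.Smooth H) {c₀ : ℝ} {L : Set S.M} (hL : RegularPart S H c₀ L)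
    (hconn : IsPreconnected L)
    (hinv : ∀ (k : K) (x : S.M), x ∈ L → (∀ ζ, J ζ (k • x) = J ζ x) → k • x ∈ L)
    {θ : OneForm S} (hθ : SmoothOne S θ) (hprim : ∀ᶠ x in 𝓝ˢ L, IsPrimitiveAt S θ x)
    (hJ : ((∃ x ∈ L, ∃ c : ℂ, ∀ v, A x v = c • v) ∧ ∃ x ∈ L, ∃ k : K, S.d (J η) (k • x) ≠ 0) ∨
      ((Module.finrank ℂ V = 2 ∨ ∀ x ∈ L, SimpleTop (A x)) ∧
        ∃ x ∈ L, ∃ k : K, (∀ k' : K, J η (k' • x) ≤ J η (k • x)) ∧ S.d (J η) (k • x) ≠ 0)) :
    ∃ (k : K) (x : S.M) (τ : ℝ → ℝ) (T : ℝ),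
      S.IsPeriodic H (fun t => (k⁻¹ * e (τ t) * k) • x) T ∧
        ∀ t, (k⁻¹ * e (τ t) * k) • x ∈ L := by
  have hcb := he.isMomentum hK
  have hbc : Continuous (J η) := (hK.mom_smooth η).continuous
  refine exact_case hK halt hnd he hH hL hconn hinv hθ hprim ?_ ?_ ?_
  · intro x hx k₁ k₂ h₁ h₂
    exact fn_fibre hK halt he hθ hprim hbc h (fun _ _ h => h)
      (fun k hk => mem_of_max hK halt hcb hinv hx hk) k₁ k₂ h₁ h₂
  · intro x hx k₁ k₂ h₁ h₂
    refine fn_fibre hK halt he hθ hprim (b := fun x => - J η x) hbc.neg h.neg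
      (fun _ _ h => neg_injective h) (fun k hk s => ?_) k₁ k₂
      (fun k' => neg_le_neg (h₁ k')) (fun k' => neg_le_neg (h₂ k'))
    have := mem_of_max hK halt hcb.neg hinv hx hk (-s)
    simpa using this
  · have hsc : (∃ x ∈ L, ∃ c : ℂ, ∀ v, A x v = c • v) → ∃ x ∈ L, ∀ k : K, J η (k • x) = J η x := by
      rintro ⟨x, hx, c, hc⟩
      refine ⟨x, hx, fun k => ?_⟩
      have h1 : ∀ v : V, ‖v‖ = 1 → (A x).reApplyInnerSelf v = c.re := by
        intro v hv
        rw [ContinuousLinearMap.reApplyInnerSelf_apply, hc, inner_smul_left,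
          inner_self_eq_norm_sq_to_K, hv]
        simp
      rw [h.apply, h.momentum, h1 _ (h.norm _), h1 _ h.unit]
    have hsi : (∀ x ∈ L, SimpleTop (A x)) →
        ∀ x ∈ L, ∀ k₁ k₂ : K, (∀ k' : K, J η (k' • x) ≤ J η (k₁ • x)) →
        (∀ k' : K, J η (k' • x) ≤ J η (k₂ • x)) → ∀ s, k₁⁻¹ * e s * k₁ = k₂⁻¹ * e s * k₂ := by
      intro hs x hx k₁ k₂ h₁ h₂ s
      obtain ⟨z, hz⟩ := hs x hx _ _ (h.isTop.1 h₁) (h.isTop.1 h₂)
      exact h.conj_eq hz s
    rcases hJ with ⟨hc, hm⟩ | ⟨h2 | hs, hm⟩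
    · exact Or.inl ⟨hsc hc, hm⟩
    · by_cases hc : ∃ x ∈ L, ∃ c : ℂ, ∀ v, A x v = c • v
      · obtain ⟨x, hx, k, -, hk⟩ := hm
        exact Or.inl ⟨hsc hc, x, hx, k, hk⟩
      · refine Or.inr ⟨hsi fun x hx => simpleTop_of_two h2 (h.selfAdjoint x) fun hno => ?_, hm⟩
        exact hc ⟨x, hx, hno⟩
    · exact Or.inr ⟨hsi hs, hm⟩

end lie

end Pool.Agent.H15.WM
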